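import Mathlib

/-!
# A Liouville number: arithmetic estimates
-/

set_option autoImplicit false

open Filter Topology MeasureTheory

namespace Pool.Agent.U38.TS

/-- the exponents -/
def kk (n : ℕ) : ℕ := (n + 2).factorial

/-- the frequencies -/
def q (n : ℕ) : ℕ := 2 ^ kk n

theorem kk_succ (n : ℕ) : kk (n + 1) = (n + 3) * kk n := by
  unfold kk
  rw [show n + 1 + 2 = (n + 2) + 1 by ring, Nat.factorial_succ]

theorem kk_ge (n : ℕ) : n + 2 ≤ kk n := Nat.self_le_factorial _

theorem kk_mono {m n : ℕ} (h : m ≤ n) : kk m ≤ kk n :=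
  Nat.factorial_le (by omega)

theorem q_pos (n : ℕ) : 0 < q n := by unfold q; positivity

theorem q_posR (n : ℕ) : (0 : ℝ) < q n := by exact_mod_cast q_pos n

theorem q_dvd {m n : ℕ} (h : m ≤ n) : q m ∣ q n := pow_dvd_pow 2 (kk_mono h)

theorem q_le {m n : ℕ} (h : m ≤ n) : q m ≤ q n := Nat.le_of_dvd (q_pos n) (q_dvd h)

theorem q_ge_one (n : ℕ) : (1 : ℝ) ≤ q n := by exact_mod_cast q_pos n

theorem two_mul_q_le (n : ℕ) : 2 * q n ≤ q (n + 1) := by
  unfold q
  rw [← pow_succ']
  refine Nat.pow_le_pow_right (by norm_num) ?_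
  rw [kk_succ]
  have := kk_ge n
  nlinarith

theorem q_add (n j : ℕ) : 2 ^ j * q n ≤ q (n + j) := by
  induction j with
  | zero => simp
  | succ j ih =>
    have := two_mul_q_le (n + j)
    rw [show n + (j + 1) = n + j + 1 by ring]
    rw [pow_succ]
    nlinarith

theorem inv_q_le (n j : ℕ) : (1 : ℝ) / q (n + j) ≤ 1 / q n * (1 / 2) ^ j := by
  have h : ((2 : ℝ) ^ j * q n) ≤ q (n + j) := by exact_mod_cast q_add n j
  have h1 : (0 : ℝ) < 2 ^ j * q n := by have := q_posR n; positivity
  calc (1 : ℝ) / q (n + j) ≤ 1 / (2 ^ j * q n) := one_div_le_one_div_of_le h1 h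
    _ = 1 / q n * (1 / 2) ^ j := by
      rw [one_div_pow]
      field_simp

theorem summable_q : Summable fun n => (1 : ℝ) / q n := by
  refine Summable.of_nonneg_of_le (fun n => by positivity) (fun n => ?_)
    ((summable_geometric_two).mul_left ((1 : ℝ) / q 0))
  have := inv_q_le 0 n
  rwa [zero_add] at this

/-- the rotation number -/
noncomputable def al : ℝ := ∑' n, (1 : ℝ) / q n

/-- the tails of the series -/
noncomputable def tail (n : ℕ) : ℝ := ∑' j, (1 : ℝ) / q (j + (n + 1))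

theorem summable_tail (n : ℕ) : Summable fun j => (1 : ℝ) / q (j + (n + 1)) :=
  (summable_nat_add_iff (n + 1)).2 summable_q

theorem tail_pos (n : ℕ) : 0 < tail n :=
  (summable_tail n).tsum_pos (fun j => by positivity) 0 (by have := q_posR (0 + (n + 1)); positivity)

theorem tail_le (n : ℕ) : tail n ≤ 2 / q (n + 1) := by
  have h : ∀ j, (1 : ℝ) / q (j + (n + 1)) ≤ 1 / q (n + 1) * (1 / 2) ^ j := by
    intro j
    rw [add_comm j]
    exact inv_q_le _ _
  have h2 := Summable.tsum_le_tsum h (summable_tail n) (summable_geometric_two.mul_left _)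
  rw [tsum_mul_left, tsum_geometric_two] at h2
  calc tail n ≤ 1 / q (n + 1) * 2 := h2
    _ = 2 / q (n + 1) := by ring

theorem tail_eq (n : ℕ) : tail n = 1 / q (n + 1) + tail (n + 1) := by
  unfold tail
  rw [(summable_tail n).tsum_eq_zero_add]
  congr 1
  · simp
  · refine tsum_congr fun j => ?_
    rw [show j + 1 + (n + 1) = j + (n + 1 + 1) by ring]

theorem al_eq (n : ℕ) : al = ∑ j ∈ Finset.range (n + 1), (1 : ℝ) / q j + tail n :=
  (summable_q.sum_add_tsum_nat_add (n + 1)).symm

/-- the circle -/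
abbrev TT : Type := UnitAddCircle

theorem coe_mul_al {K n : ℕ} (h : q n ∣ K) : (((K : ℝ) * al : ℝ) : TT) = ((K * tail n : ℝ) : TT) := by
  rw [al_eq n, mul_add, AddCircle.coe_add]
  have : (((K : ℝ) * ∑ j ∈ Finset.range (n + 1), (1 : ℝ) / q j : ℝ) : TT) = 0 := by
    have h2 : (K : ℝ) * ∑ j ∈ Finset.range (n + 1), (1 : ℝ) / q j =
        ((∑ j ∈ Finset.range (n + 1), K / q j : ℕ) : ℝ) := by
      rw [Finset.mul_sum, Nat.cast_sum]
      refine Finset.sum_congr rfl fun j hj => ?_
      have hj' : q j ∣ K := (q_dvd (by have := Finset.mem_range.1 hj; omega)).trans h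
      rw [Nat.cast_div hj' (q_posR j).ne']
      ring
    rw [h2]
    rw [AddCircle.coe_eq_zero_iff]
    refine ⟨((∑ j ∈ Finset.range (n + 1), K / q j : ℕ) : ℤ), ?_⟩
    rw [zsmul_eq_mul, mul_one, Int.cast_natCast]
  rw [this, zero_add]

theorem nsmul_al {K n : ℕ} (h : q n ∣ K) : K • (al : TT) = ((K * tail n : ℝ) : TT) := by
  rw [← coe_mul_al h, ← AddCircle.coe_nsmul, nsmul_eq_mul]

/-- the character -/
noncomputable def ee (x : TT) : ℂ := (AddCircle.toCircle x : ℂ)

theorem ee_add (x y : TT) : ee (x + y) = ee x * ee y := by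
  unfold ee; rw [AddCircle.toCircle_add]; simp

theorem ee_zero : ee 0 = 1 := by unfold ee; rw [AddCircle.toCircle_zero]; simp

theorem norm_ee (x : TT) : ‖ee x‖ = 1 := Circle.norm_coe (AddCircle.toCircle x)

theorem ee_ne (x : TT) : ee x ≠ 0 := by
  intro h; have := norm_ee x; rw [h] at this; simp at this

theorem ee_neg (x : TT) : ee (-x) = (ee x)⁻¹ := by
  have h := ee_add x (-x)
  rw [add_neg_cancel, ee_zero] at h
  exact eq_inv_of_mul_eq_one_right h.symm

theorem continuous_ee : Continuous ee :=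
  continuous_subtype_val.comp AddCircle.continuous_toCircle

theorem ee_coe (t : ℝ) : ee (t : TT) = Complex.exp (2 * Real.pi * t * Complex.I) := by
  unfold ee
  rw [AddCircle.toCircle_apply_mk, Circle.coe_exp]
  congr 1
  push_cast
  ring

theorem norm_ee_sub_one_le (t : ℝ) : ‖ee (t : TT) - 1‖ ≤ 2 * Real.pi * |t| := by
  have h := Real.norm_exp_I_mul_ofReal_sub_one_le (x := 2 * Real.pi * t)
  rw [ee_coe]
  have e : Complex.exp (2 * Real.pi * t * Complex.I) = Complex.exp (Complex.I * ((2 * Real.pi * t : ℝ) : ℂ)) := by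
    congr 1; push_cast; ring
  rw [e]
  refine h.trans ?_
  rw [Real.norm_eq_abs, abs_mul, abs_of_pos (by positivity : (0 : ℝ) < 2 * Real.pi)]

theorem ee_nsmul (n : ℕ) (x : TT) : ee (n • x) = ee x ^ n := by
  induction n with
  | zero => simp [ee_zero]
  | succ n ih => rw [succ_nsmul, ee_add, ih, pow_succ]

theorem ee_half : ee (((1 / 2 : ℝ) : ℝ) : TT) = -1 := by
  rw [ee_coe]
  have : (2 * Real.pi * ((1 / 2 : ℝ) : ℂ) * Complex.I : ℂ) = Real.pi * Complex.I := by
    push_cast; ring
  rw [this, Complex.exp_pi_mul_I]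

theorem norm_ee_nsmul_al {K n : ℕ} (h : q n ∣ K) :
    ‖ee (K • (al : TT)) - 1‖ ≤ 2 * Real.pi * (K * tail n) := by
  rw [nsmul_al h]
  refine (norm_ee_sub_one_le _).trans ?_
  rw [abs_of_nonneg]
  have := tail_pos n
  positivity

theorem addOrder_al : addOrderOf (al : TT) = 0 := by
  rw [addOrderOf_eq_zero_iff']
  intro m hm h0
  -- choose `n` large
  obtain ⟨n, hn⟩ : ∃ n : ℕ, (2 * m * q n : ℝ) / q (n + 1) < 1 := by
    refine ⟨m, ?_⟩
    rw [div_lt_one (q_posR _)]
    have h1 : 2 * m * q m < q (m + 1) := by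
      unfold q
      rw [kk_succ]
      have h2 : m < 2 ^ m := Nat.lt_two_pow_self
      have h3 : 2 * m * 2 ^ kk m < 2 * 2 ^ m * 2 ^ kk m := by
        have : 0 < 2 ^ kk m := by positivity
        nlinarith
      refine h3.trans_le ?_
      rw [← pow_succ', ← pow_add]
      refine Nat.pow_le_pow_right (by norm_num) ?_
      have := kk_ge m
      nlinarith
    exact_mod_cast h1
  have h1 : (m * q n) • (al : TT) = 0 := by
    rw [mul_comm, mul_smul, h0, smul_zero]
  rw [nsmul_al (n := n) (dvd_mul_left _ _)] at h1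
  have hpos : 0 < ((m * q n : ℕ) : ℝ) * tail n := by
    have := tail_pos n
    have := q_posR n
    have : (0 : ℝ) < m := by exact_mod_cast hm
    push_cast
    positivity
  have hlt : ((m * q n : ℕ) : ℝ) * tail n < 1 := by
    refine lt_of_le_of_lt ?_ hn
    have := tail_le n
    have h3 : (0 : ℝ) ≤ ((m * q n : ℕ) : ℝ) := by positivity
    calc ((m * q n : ℕ) : ℝ) * tail n ≤ ((m * q n : ℕ) : ℝ) * (2 / q (n + 1)) :=
          mul_le_mul_of_nonneg_left this h3
      _ = _ := by push_cast; ring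
  rw [AddCircle.coe_eq_zero_iff] at h1
  obtain ⟨z, hz⟩ := h1
  rw [zsmul_eq_mul, mul_one] at hz
  rw [← hz] at hpos hlt
  have a1 : (0 : ℤ) < z := by exact_mod_cast hpos
  have a2 : z < (1 : ℤ) := by exact_mod_cast hlt
  omega

theorem ergodic_rot : Ergodic (fun x : TT => x + (al : TT)) :=
  AddCircle.ergodic_add_right.2 addOrder_al

/-- the return times -/
def mm (N : ℕ) : ℕ := 2 ^ (kk (N + 1) - kk N - 1)

theorem mm_mul (N : ℕ) : 2 * (mm N * q N) = q (N + 1) := by
  unfold mm q
  rw [← pow_add, ← pow_succ']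
  congr 1
  have h1 := kk_succ N
  have h2 := kk_ge N
  have : 2 * kk N ≤ kk (N + 1) := by rw [h1]; nlinarith
  omega

theorem q_dvd_mm (N : ℕ) : q N ∣ mm N := by
  unfold mm q
  refine pow_dvd_pow 2 ?_
  have h1 := kk_succ N
  have h2 := kk_ge N
  have : 3 * kk N ≤ kk (N + 1) := by rw [h1]; nlinarith
  omega

theorem mm_le (N : ℕ) : mm N ≤ q (N + 1) := by
  have h := mm_mul N
  have := q_pos N
  nlinarith

/-- a dominating sequence -/
noncomputable def bb (r n : ℕ) : ℝ := (q n : ℝ) ^ r * q n / q (n + 1)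

theorem bb_nonneg (r n : ℕ) : 0 ≤ bb r n := by unfold bb; positivity

theorem summable_bb (r : ℕ) : Summable (bb r) := by
  refine Summable.of_norm_bounded_eventually_nat (g := fun n => (1 / 2 : ℝ) ^ n)
    summable_geometric_two ?_
  filter_upwards [eventually_ge_atTop r] with n hn
  rw [Real.norm_eq_abs, abs_of_nonneg (bb_nonneg r n)]
  unfold bb
  rw [div_le_iff₀ (q_posR _), one_div_pow, div_mul_eq_mul_div, one_mul, le_div_iff₀ (by positivity)]
  have h : q n ^ r * q n * 2 ^ n ≤ q (n + 1) := by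
    unfold q
    rw [← pow_mul, ← pow_add, ← pow_add]
    refine Nat.pow_le_pow_right (by norm_num) ?_
    rw [kk_succ]
    have h2 := kk_ge n
    have h3 : kk n * r ≤ kk n * n := Nat.mul_le_mul_left _ hn
    nlinarith
  exact_mod_cast h

/-- `n < N` -/
theorem est_lt {n N : ℕ} : ‖ee ((mm N * q n) • (al : TT)) - 1‖ ≤ 2 * Real.pi * ((q n : ℝ) / q N) := by
  have h := norm_ee_nsmul_al (K := mm N * q n) (n := N) ((q_dvd_mm N).mul_right _)
  refine h.trans ?_
  have h1 := tail_le N
  have h2 : (0 : ℝ) ≤ ((mm N * q n : ℕ) : ℝ) := by positivity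
  have h3 : (2 : ℝ) * (mm N * q N) = q (N + 1) := by exact_mod_cast mm_mul N
  have h4 := q_posR N
  have h5 : ((mm N * q n : ℕ) : ℝ) * tail N ≤ (q n : ℝ) / q N := by
    calc ((mm N * q n : ℕ) : ℝ) * tail N ≤ ((mm N * q n : ℕ) : ℝ) * (2 / q (N + 1)) :=
          mul_le_mul_of_nonneg_left h1 h2
      _ = (q n : ℝ) / q N := by
        rw [← h3]
        have : (0 : ℝ) < mm N := by unfold mm; positivity
        push_cast
        field_simp
  have : (0 : ℝ) < 2 * Real.pi := by positivity
  nlinarith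

/-- `n > N` -/
theorem est_gt {n N : ℕ} (h : N < n) : ‖ee ((mm N * q n) • (al : TT)) - 1‖ ≤ 2 * Real.pi * (2 * bb 1 n) := by
  have h0 := norm_ee_nsmul_al (K := mm N * q n) (n := n) (dvd_mul_left _ _)
  refine h0.trans ?_
  have h1 := tail_le n
  have h2 : (0 : ℝ) ≤ ((mm N * q n : ℕ) : ℝ) := by positivity
  have h3 : (mm N : ℝ) ≤ q n := by
    have := (mm_le N).trans (q_le (Nat.succ_le_of_lt h))
    exact_mod_cast this
  have h5 : ((mm N * q n : ℕ) : ℝ) * tail n ≤ 2 * bb 1 n := by
    calc ((mm N * q n : ℕ) : ℝ) * tail n ≤ ((mm N * q n : ℕ) : ℝ) * (2 / q (n + 1)) :=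
          mul_le_mul_of_nonneg_left h1 h2
      _ = (mm N : ℝ) * (q n * (2 / q (n + 1))) := by push_cast; ring
      _ ≤ (q n : ℝ) * (q n * (2 / q (n + 1))) := by gcongr
      _ = 2 * bb 1 n := by unfold bb; ring
  have : (0 : ℝ) < 2 * Real.pi := by positivity
  nlinarith

/-- `n = N` -/
theorem est_eq (N : ℕ) : ‖ee ((mm N * q N) • (al : TT)) + 1‖ ≤
    2 * Real.pi * ((q (N + 1) : ℝ) / q (N + 2)) := by
  rw [nsmul_al (K := mm N * q N) (n := N) (dvd_mul_left _ _), tail_eq N]
  have h3 : (2 : ℝ) * (mm N * q N) = q (N + 1) := by exact_mod_cast mm_mul N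
  have e1 : ((mm N * q N : ℕ) : ℝ) * (1 / q (N + 1) + tail (N + 1)) =
      1 / 2 + ((mm N * q N : ℕ) : ℝ) * tail (N + 1) := by
    rw [mul_add, ← h3]
    have : (0 : ℝ) < mm N := by unfold mm; positivity
    have := q_posR N
    push_cast
    field_simp
  rw [e1, AddCircle.coe_add, ee_add, ee_half]
  set t : ℝ := ((mm N * q N : ℕ) : ℝ) * tail (N + 1) with ht
  have e2 : (-1 : ℂ) * ee (t : TT) + 1 = -(ee (t : TT) - 1) := by ring
  rw [e2, norm_neg]
  refine (norm_ee_sub_one_le t).trans ?_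
  have h4 : 0 ≤ t := by have := tail_pos (N + 1); positivity
  rw [abs_of_nonneg h4]
  have h5 : t ≤ (q (N + 1) : ℝ) / q (N + 2) := by
    have h6 := tail_le (N + 1)
    have h7 : (0 : ℝ) ≤ ((mm N * q N : ℕ) : ℝ) := by positivity
    calc t ≤ ((mm N * q N : ℕ) : ℝ) * (2 / q (N + 1 + 1)) := mul_le_mul_of_nonneg_left h6 h7
      _ = (2 * (mm N * q N)) / q (N + 2) := by push_cast; ring
      _ = _ := by rw [h3]
  have : (0 : ℝ) < 2 * Real.pi := by positivity
  nlinarith

theorem q_tendsto : Tendsto (fun n => (q n : ℝ)) atTop atTop := by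
  refine tendsto_atTop_mono (f := fun n : ℕ => (n : ℝ)) (fun n => ?_) tendsto_natCast_atTop_atTop
  have h : n ≤ q n := by
    unfold q
    calc n ≤ 2 ^ n := Nat.lt_two_pow_self.le
      _ ≤ 2 ^ kk n := Nat.pow_le_pow_right (by norm_num) (by have := kk_ge n; omega)
  exact_mod_cast h

/-- the deviation at the frequency `n` and the time `mm N` -/
noncomputable def dd (N n : ℕ) : ℝ :=
  if n = N then ‖ee ((mm N * q n) • (al : TT)) + 1‖ else ‖ee ((mm N * q n) • (al : TT)) - 1‖

theorem dd_nonneg (N n : ℕ) : 0 ≤ dd N n := by unfold dd; split_ifs <;> positivity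

theorem dd_le (N n : ℕ) : dd N n ≤ 2 * Real.pi * (2 * (bb 1 n + bb 1 (n + 1))) := by
  have hpi : (0 : ℝ) < 2 * Real.pi := by positivity
  have hb1 := bb_nonneg 1 n
  have hb2 := bb_nonneg 1 (n + 1)
  unfold dd
  split_ifs with h
  · subst h
    refine (est_eq n).trans ?_
    have h1 : (q (n + 1) : ℝ) / q (n + 2) ≤ bb 1 (n + 1) := by
      unfold bb
      rw [pow_one]
      have := q_ge_one (n + 1)
      have h2 := q_posR (n + 1 + 1)
      rw [div_le_div_iff_of_pos_right h2]
      nlinarith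
    nlinarith
  · rcases lt_or_gt_of_ne h with h' | h'
    · refine est_lt.trans ?_
      have h1 : (q n : ℝ) / q N ≤ bb 1 n := by
        unfold bb
        rw [pow_one]
        have h2 : (q (n + 1) : ℝ) ≤ q N := by exact_mod_cast q_le h'
        have h3 := q_ge_one n
        have h4 := q_posR (n + 1)
        calc (q n : ℝ) / q N ≤ q n / q (n + 1) := by gcongr
          _ ≤ q n * q n / q (n + 1) := by
            rw [div_le_div_iff_of_pos_right h4]
            nlinarith
      nlinarith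
    · refine (est_gt h').trans ?_
      nlinarith

theorem summable_bound : Summable fun n => 2 * Real.pi * (2 * (bb 1 n + bb 1 (n + 1))) :=
  (((summable_bb 1).add ((summable_nat_add_iff 1).2 (summable_bb 1))).mul_left 2).mul_left _

theorem dd_tendsto (n : ℕ) : Tendsto (fun N => dd N n) atTop (𝓝 0) := by
  have h1 : Tendsto (fun N => 2 * Real.pi * ((q n : ℝ) / q N)) atTop (𝓝 0) := by
    have := (tendsto_const_nhds (x := (q n : ℝ))).div_atTop q_tendsto
    simpa using this.const_mul (2 * Real.pi)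
  refine squeeze_zero' (Eventually.of_forall fun N => dd_nonneg N n) ?_ h1
  filter_upwards [eventually_gt_atTop n] with N hN
  unfold dd
  rw [if_neg (by omega)]
  exact est_lt

theorem dd_tsum : Tendsto (fun N => ∑' n, dd N n) atTop (𝓝 0) := by
  have h := tendsto_tsum_of_dominated_convergence (f := fun N n => dd N n) (g := fun _ => (0 : ℝ))
    (𝓕 := atTop) summable_bound (fun n => dd_tendsto n) (Eventually.of_forall fun N n => by
      rw [Real.norm_eq_abs, abs_of_nonneg (dd_nonneg N n)]; exact dd_le N n)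
  simpa using h

theorem summable_dd (N : ℕ) : Summable fun n => dd N n :=
  Summable.of_nonneg_of_le (dd_nonneg N) (dd_le N) summable_bound

/-- `mm N • al → 0` -/
theorem mm_al_tendsto : Tendsto (fun N => mm N • (al : TT)) atTop (𝓝 0) := by
  have h : ∀ N, mm N • (al : TT) = ((mm N * tail N : ℝ) : TT) := fun N => nsmul_al (q_dvd_mm N)
  simp_rw [h]
  have h0 : Tendsto (fun N => (mm N * tail N : ℝ)) atTop (𝓝 0) := by
    have h1 : Tendsto (fun N => (1 : ℝ) / q N) atTop (𝓝 0) :=
      (tendsto_const_nhds (x := (1 : ℝ))).div_atTop q_tendsto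
    refine squeeze_zero (fun N => by have := tail_pos N; positivity) (fun N => ?_) h1
    have h3 : (2 : ℝ) * (mm N * q N) = q (N + 1) := by exact_mod_cast mm_mul N
    have h4 := q_posR N
    have h5 : (0 : ℝ) < mm N := by unfold mm; positivity
    calc (mm N : ℝ) * tail N ≤ mm N * (2 / q (N + 1)) := by have := tail_le N; gcongr
      _ = 1 / q N := by rw [← h3]; field_simp
  have hc : Continuous (fun t : ℝ => (t : TT)) := AddCircle.continuous_mk'  (1 : ℝ)
  have h9 := (hc.tendsto 0).comp h0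
  have e0 : ((0 : ℝ) : TT) = 0 := rfl
  rw [e0] at h9
  exact h9

end Pool.Agent.U38.TS
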