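import Mathlib
import Pool.Agent.U38.TS.Arith

/-!
# Cocycles over the Liouville rotation: the key lemma
-/

set_option autoImplicit false

open Filter Topology MeasureTheory

namespace Pool.Agent.U38.TS

/-- the trigonometric polynomials -/
noncomputable def GG (z : ℕ → ℂ) (n : ℕ) (x : TT) : ℝ := (z n * ee (q n • x)).re

/-- the formal coboundary over `y` -/
noncomputable def Th (z : ℕ → ℂ) (y x : TT) : ℝ := ∑' n, (GG z n (x + y) - GG z n x)

theorem GG_diff (z : ℕ → ℂ) (n : ℕ) (x y : TT) :
    |GG z n (x + y) - GG z n x| ≤ ‖z n‖ * ‖ee (q n • y) - 1‖ := by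
  unfold GG
  rw [smul_add, ee_add, ← Complex.sub_re]
  have : z n * (ee (q n • x) * ee (q n • y)) - z n * ee (q n • x) =
      z n * (ee (q n • x) * (ee (q n • y) - 1)) := by ring
  rw [this]
  refine (Complex.abs_re_le_norm _).trans ?_
  rw [norm_mul, norm_mul, norm_ee, one_mul]

theorem GG_sum (z : ℕ → ℂ) (n : ℕ) (x y : TT) :
    |GG z n (x + y) + GG z n x| ≤ ‖z n‖ * ‖ee (q n • y) + 1‖ := by
  unfold GG
  rw [smul_add, ee_add, ← Complex.add_re]
  have : z n * (ee (q n • x) * ee (q n • y)) + z n * ee (q n • x) =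
      z n * (ee (q n • x) * (ee (q n • y) + 1)) := by ring
  rw [this]
  refine (Complex.abs_re_le_norm _).trans ?_
  rw [norm_mul, norm_mul, norm_ee, one_mul]

theorem al_diff (m n : ℕ) : ‖ee (q n • (m • (al : TT))) - 1‖ ≤ m * (2 * Real.pi * (2 * bb 0 n)) := by
  have h := norm_ee_nsmul_al (K := q n * m) (n := n) (dvd_mul_right _ _)
  rw [mul_smul] at h
  refine h.trans ?_
  have h1 := tail_le n
  have h2 : ((q n * m : ℕ) : ℝ) * tail n ≤ m * (2 * bb 0 n) := by
    calc ((q n * m : ℕ) : ℝ) * tail n ≤ ((q n * m : ℕ) : ℝ) * (2 / q (n + 1)) := by gcongr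
      _ = m * (2 * bb 0 n) := by unfold bb; push_cast; ring
  have : (0 : ℝ) < 2 * Real.pi := by positivity
  nlinarith

theorem summable_diff {z : ℕ → ℂ} {C : ℝ} (hz : ∀ n, ‖z n‖ ≤ C) (m : ℕ) (x : TT) :
    Summable fun n => (GG z n (x + m • (al : TT)) - GG z n x) := by
  have hC : 0 ≤ C := (norm_nonneg _).trans (hz 0)
  refine Summable.of_norm_bounded (g := fun n => C * (m * (2 * Real.pi * (2 * bb 0 n)))) ?_ ?_
  · exact ((((summable_bb 0).mul_left 2).mul_left _).mul_left _).mul_left _
  · intro n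
    refine (GG_diff z n x _).trans ?_
    exact mul_le_mul (hz n) (al_diff m n) (norm_nonneg _) hC

theorem Th_succ {z : ℕ → ℂ} {C : ℝ} (hz : ∀ n, ‖z n‖ ≤ C) (m : ℕ) (x : TT) :
    Th z ((m + 1) • (al : TT)) x = Th z (m • (al : TT)) x + Th z al (x + m • (al : TT)) := by
  unfold Th
  have h1 := summable_diff hz m x
  have h2 := summable_diff hz 1 (x + m • (al : TT))
  rw [one_smul] at h2
  rw [← h1.tsum_add h2]
  refine tsum_congr fun n => ?_
  rw [succ_nsmul, add_assoc]
  ring

/-- `E t = exp (2 π i t)` -/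
noncomputable def EE (t : ℝ) : ℂ := ee (t : TT)

theorem EE_add (s t : ℝ) : EE (s + t) = EE s * EE t := by
  unfold EE; rw [AddCircle.coe_add, ee_add]

theorem EE_zero : EE 0 = 1 := by unfold EE; rw [AddCircle.coe_zero, ee_zero]

theorem norm_EE (t : ℝ) : ‖EE t‖ = 1 := norm_ee _

theorem continuous_EE : Continuous EE := continuous_ee.comp (AddCircle.continuous_mk' (1 : ℝ))

theorem EE_diff (s t : ℝ) : ‖EE s - EE t‖ ≤ 2 * Real.pi * |s - t| := by
  have h : EE s - EE t = EE t * (EE (s - t) - 1) := by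
    rw [mul_sub, ← EE_add, mul_one]; congr 2; ring
  rw [h, norm_mul, norm_EE, one_mul]
  exact norm_ee_sub_one_le _

theorem iter {z : ℕ → ℂ} {C : ℝ} (hz : ∀ n, ‖z n‖ ≤ C) {f : TT → ℂ}
    (hf : ∀ᵐ x : TT, f (x + al) = EE (Th z al x) * f x) (m : ℕ) :
    ∀ᵐ x : TT, f (x + m • (al : TT)) = EE (Th z (m • (al : TT)) x) * f x := by
  induction m with
  | zero =>
    refine Eventually.of_forall fun x => ?_
    have : Th z ((0 : ℕ) • (al : TT)) x = 0 := by unfold Th; simp
    rw [this, EE_zero, zero_smul, add_zero, one_mul]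
  | succ m ih =>
    have hmp : MeasurePreserving (fun x : TT => x + m • (al : TT)) volume volume :=
      measurePreserving_add_right volume _
    filter_upwards [ih, hmp.quasiMeasurePreserving.ae hf] with x h1 h2
    rw [succ_nsmul, ← add_assoc, h2, h1, ← succ_nsmul, Th_succ hz, EE_add]
    ring

/-- continuity of translations in `L¹` -/
theorem L1_cont {f : TT → ℂ} (hf : MemLp f 1 (volume : Measure TT)) {y : ℕ → TT}
    (hy : Tendsto y atTop (𝓝 0)) : Tendsto (fun N => ∫ x : TT, ‖f (x + y N) - f x‖) atTop (𝓝 0) := by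
  let c : C(TT × TT, TT) := ⟨fun p => p.2 + p.1, by fun_prop⟩
  let g : ℕ → C(TT, TT) := fun N => c.curry (y N)
  have hg : Tendsto g atTop (𝓝 (c.curry 0)) := (c.curry.continuous.tendsto 0).comp hy
  have hgm : ∀ N, MeasurePreserving (g N) (volume : Measure TT) volume :=
    fun N => measurePreserving_add_right volume _
  have hgm0 : MeasurePreserving (c.curry 0) (volume : Measure TT) volume :=
    measurePreserving_add_right volume _
  have h := Filter.Tendsto.compMeasurePreservingLp (tendsto_const_nhds (x := hf.toLp f)) hg hgm hgm0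
    (by simp)
  rw [tendsto_iff_norm_sub_tendsto_zero] at h
  refine h.congr fun N => ?_
  rw [L1.norm_eq_integral_norm]
  refine integral_congr_ae ?_
  have e1 : (Lp.compMeasurePreserving (g N) (hgm N) (hf.toLp f) : TT → ℂ) =ᵐ[volume]
      fun x => f (x + y N) := by
    refine (Lp.coeFn_compMeasurePreserving (hf.toLp f) (hgm N)).trans ?_
    exact (hgm N).quasiMeasurePreserving.ae_eq_comp hf.coeFn_toLp
  have e2 : (Lp.compMeasurePreserving (c.curry 0) hgm0 (hf.toLp f) : TT → ℂ) =ᵐ[volume]
      fun x => f x := by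
    refine (Lp.coeFn_compMeasurePreserving (hf.toLp f) hgm0).trans ?_
    have := hgm0.quasiMeasurePreserving.ae_eq_comp hf.coeFn_toLp
    refine this.trans (Eventually.of_forall fun x => ?_)
    show f (x + 0) = f x
    rw [add_zero]
  filter_upwards [Lp.coeFn_sub (Lp.compMeasurePreserving (g N) (hgm N) (hf.toLp f))
    (Lp.compMeasurePreserving (c.curry 0) hgm0 (hf.toLp f)), e1, e2] with x h1 h2 h3
  rw [h1, Pi.sub_apply, h2, h3]

/-- the defect -/
noncomputable def hh (w : ℂ) : ℝ := ∫ x : TT, ‖EE (-(2 * (w * ee x).re)) - 1‖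

theorem hh_cont : Continuous hh := by
  have h := continuous_parametric_integral_of_continuous (μ := (volume : Measure TT))
    (f := fun (w : ℂ) (x : TT) => ‖EE (-(2 * (w * ee x).re)) - 1‖) (by
      have h1 := continuous_EE
      have h2 := continuous_ee
      show Continuous fun p : ℂ × TT => ‖EE (-(2 * (p.1 * ee p.2).re)) - 1‖
      fun_prop) (isCompact_univ (X := TT))
  simp only [Measure.restrict_univ] at h
  exact h

theorem EE_eq_one {s : ℝ} (h : EE s = 1) : ∃ k : ℤ, (k : ℝ) = s := by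
  unfold EE at h
  have h1 : AddCircle.toCircle (s : TT) = AddCircle.toCircle (0 : TT) := by
    apply Subtype.ext
    rw [AddCircle.toCircle_zero]
    exact h
  have h2 := AddCircle.injective_toCircle (one_ne_zero) h1
  rw [AddCircle.coe_eq_zero_iff] at h2
  obtain ⟨k, hk⟩ := h2
  exact ⟨k, by rw [zsmul_eq_mul, mul_one] at hk; exact hk⟩

theorem hh_pos {w : ℂ} (hw : w ≠ 0) : 0 < hh w := by
  have hnn : 0 ≤ hh w := integral_nonneg fun x => norm_nonneg _
  rcases hnn.lt_or_eq with h | h
  · exact h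
  exfalso
  have hcont : Continuous fun x : TT => ‖EE (-(2 * (w * ee x).re)) - 1‖ := by
    have h1 := continuous_EE
    have h2 := continuous_ee
    fun_prop
  have hint : Integrable (fun x : TT => ‖EE (-(2 * (w * ee x).re)) - 1‖) volume :=
    hcont.integrable_of_hasCompactSupport (HasCompactSupport.of_compactSpace _)
  have h0 := (integral_eq_zero_iff_of_nonneg (fun x => norm_nonneg _) hint).1 h.symm
  have h1 := (hcont.ae_eq_iff_eq volume continuous_zero).1 h0
  have h2 : ∀ x : TT, EE (-(2 * (w * ee x).re)) = 1 := by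
    intro x
    have := congrFun h1 x
    simp only [Pi.zero_apply, norm_eq_zero] at this
    exact sub_eq_zero.1 this
  -- the real function
  let u : ℝ → ℝ := fun t => -(2 * (w * ee (t : TT)).re)
  have hu : Continuous u := by
    have h2 : Continuous fun t : ℝ => ee (t : TT) := continuous_EE
    show Continuous fun t : ℝ => -(2 * (w * ee (t : TT)).re)
    fun_prop
  have hanti : ∀ t, u (t + 1 / 2) = -u t := by
    intro t
    show -(2 * (w * ee ((t + 1 / 2 : ℝ) : TT)).re) = -(-(2 * (w * ee (t : TT)).re))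
    rw [AddCircle.coe_add, ee_add, ee_half]
    simp
    ring
  have hz : ∀ t, u t = 0 := by
    intro t
    by_contra hne
    -- intermediate values
    obtain ⟨s, hs⟩ : ∃ s, u s = min |u t| (1 / 2) := by
      have hpos : 0 < |u t| := abs_pos.2 hne
      have hrange : Set.uIcc (u t) (u (t + 1 / 2)) ⊆ u '' Set.uIcc t (t + 1 / 2) :=
        intermediate_value_uIcc hu.continuousOn
      have hm : min |u t| (1 / 2) ∈ Set.uIcc (u t) (u (t + 1 / 2)) := by
        rw [hanti, Set.mem_uIcc]
        have a1 := min_le_left |u t| (1 / 2 : ℝ)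
        have a2 : 0 ≤ min |u t| (1 / 2 : ℝ) := le_min hpos.le (by norm_num)
        rcases lt_or_gt_of_ne hne with h | h
        · rw [abs_of_neg h] at a1 a2 ⊢
          left; constructor <;> linarith
        · rw [abs_of_pos h] at a1 a2 ⊢
          right; constructor <;> linarith
      obtain ⟨s, -, hs⟩ := hrange hm
      exact ⟨s, hs⟩
    obtain ⟨k, hk⟩ := EE_eq_one (h2 (s : TT))
    have hk2 : (k : ℝ) = min |u t| (1 / 2) := hk.trans hs
    have a3 : 0 < min |u t| (1 / 2 : ℝ) := lt_min (abs_pos.2 hne) (by norm_num)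
    have a4 : min |u t| (1 / 2 : ℝ) ≤ 1 / 2 := min_le_right _ _
    rw [← hk2] at a3 a4
    have b1 : (0 : ℤ) < k := by exact_mod_cast a3
    have b2 : (k : ℝ) < 1 := by linarith
    have b3 : k < (1 : ℤ) := by exact_mod_cast b2
    omega
  apply hw
  have e0 := hz 0
  have e1 := hz (1 / 4)
  have f0 : u 0 = -(2 * w.re) := by
    show -(2 * (w * ee ((0 : ℝ) : TT)).re) = _
    rw [AddCircle.coe_zero, ee_zero, mul_one]
  have hq : ee (((1 / 4 : ℝ) : ℝ) : TT) = Complex.I := by
    rw [ee_coe]
    have : (2 * Real.pi * ((1 / 4 : ℝ) : ℂ) * Complex.I : ℂ) = Real.pi / 2 * Complex.I := by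
      push_cast; ring
    rw [this, Complex.exp_pi_div_two_mul_I]
  have f1 : u (1 / 4) = 2 * w.im := by
    show -(2 * (w * ee ((1 / 4 : ℝ) : TT)).re) = _
    rw [hq]
    simp
  rw [f0] at e0
  rw [f1] at e1
  apply Complex.ext
  · simp; linarith
  · simp; linarith

theorem tendsto_of_hh {z : ℕ → ℂ} {C : ℝ} (hz : ∀ n, ‖z n‖ ≤ C)
    (h : Tendsto (fun n => hh (z n)) atTop (𝓝 0)) : Tendsto z atTop (𝓝 0) := by
  rw [Metric.tendsto_nhds]
  intro ε hε
  by_contra hcon
  rw [not_eventually] at hcon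
  have hK : IsCompact {w : ℂ | ε ≤ ‖w‖ ∧ ‖w‖ ≤ C} := by
    have e : {w : ℂ | ε ≤ ‖w‖ ∧ ‖w‖ ≤ C} = {w : ℂ | ε ≤ ‖w‖} ∩ Metric.closedBall 0 C := by
      ext w; simp
    rw [e]
    exact (isCompact_closedBall 0 C).inter_left (isClosed_le continuous_const continuous_norm)
  have hmem : ∀ n, ¬ dist (z n) 0 < ε → z n ∈ {w : ℂ | ε ≤ ‖w‖ ∧ ‖w‖ ≤ C} := by
    intro n hn
    rw [dist_zero_right, not_lt] at hn
    exact ⟨hn, hz n⟩
  obtain ⟨n0, hn0⟩ := hcon.exists
  obtain ⟨w, hw, hmin⟩ := hK.exists_isMinOn ⟨z n0, hmem n0 hn0⟩ hh_cont.continuousOn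
  have hw0 : w ≠ 0 := by
    rintro rfl
    have := hw.1
    rw [norm_zero] at this
    linarith
  have hpos := hh_pos hw0
  have hev := (Metric.tendsto_nhds.1 h) (hh w) hpos
  obtain ⟨n, hn1, hn2⟩ := (hcon.and_eventually hev).exists
  have h1 : hh w ≤ hh (z n) := hmin (hmem n hn1)
  rw [Real.dist_eq, sub_zero] at hn2
  have := le_abs_self (hh (z n))
  linarith

theorem Th_GG {z : ℕ → ℂ} {C : ℝ} (hz : ∀ n, ‖z n‖ ≤ C) (N : ℕ) (x : TT) :
    |Th z (mm N • (al : TT)) x - (-(2 * GG z N x))| ≤ C * ∑' n, dd N n := by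
  have h1 := summable_diff hz (mm N) x
  have hC : 0 ≤ C := (norm_nonneg _).trans (hz 0)
  have h2 : Summable fun n => if n = N then 2 * GG z N x else 0 := by
    refine summable_of_ne_finset_zero (s := {N}) fun n hn => ?_
    rw [if_neg (by simpa using hn)]
  have e1 : Th z (mm N • (al : TT)) x - (-(2 * GG z N x)) =
      ∑' n, ((GG z n (x + mm N • (al : TT)) - GG z n x) + if n = N then 2 * GG z N x else 0) := by
    rw [h1.tsum_add h2, tsum_ite_eq]
    unfold Th
    ring
  rw [e1]
  have hbd : ∀ n, |(GG z n (x + mm N • (al : TT)) - GG z n x) + if n = N then 2 * GG z N x else 0| ≤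
      C * dd N n := by
    intro n
    unfold dd
    split_ifs with h
    · subst h
      have e : GG z n (x + mm n • (al : TT)) - GG z n x + 2 * GG z n x =
          GG z n (x + mm n • (al : TT)) + GG z n x := by ring
      rw [e]
      refine (GG_sum z n x _).trans ?_
      rw [smul_smul, mul_comm (q n)]
      exact mul_le_mul_of_nonneg_right (hz n) (norm_nonneg _)
    · rw [add_zero]
      refine (GG_diff z n x _).trans ?_
      rw [smul_smul, mul_comm (q n)]
      exact mul_le_mul_of_nonneg_right (hz n) (norm_nonneg _)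
  rw [← tsum_mul_left]
  have hs : Summable fun n => C * dd N n := (summable_dd N).mul_left C
  have h9 := tsum_of_norm_bounded hs.hasSum (fun n => by rw [Real.norm_eq_abs]; exact hbd n)
  rwa [Real.norm_eq_abs] at h9

theorem GG_integral (z : ℕ → ℂ) (N : ℕ) :
    ∫ x : TT, ‖EE (-(2 * GG z N x)) - 1‖ = hh (z N) := by
  unfold hh
  have hq : 1 < q N := by
    unfold q
    exact Nat.one_lt_two_pow (by have := kk_ge N; omega)
  have hmp := (AddCircle.ergodic_nsmul (T := (1 : ℝ)) hq).toMeasurePreserving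
  have hcont : Continuous fun x : TT => ‖EE (-(2 * (z N * ee x).re)) - 1‖ := by
    have h1 := continuous_EE
    have h2 := continuous_ee
    fun_prop
  have h9 := integral_map (μ := (volume : Measure TT)) hmp.measurable.aemeasurable
    (f := fun x : TT => ‖EE (-(2 * (z N * ee x).re)) - 1‖) hcont.aestronglyMeasurable
  rw [hmp.map_eq] at h9
  exact h9.symm

/-- **Key lemma.** -/
theorem key {z : ℕ → ℂ} {C : ℝ} (hz : ∀ n, ‖z n‖ ≤ C) {f : TT → ℂ}
    (hfm : AEStronglyMeasurable f (volume : Measure TT))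
    (hf : ∀ᵐ x : TT, f (x + al) = EE (Th z al x) * f x) (hnot : ¬ Tendsto z atTop (𝓝 0)) :
    f =ᵐ[volume] 0 := by
  -- the modulus is constant
  have hinv : (fun x => ‖f x‖) ∘ (fun x : TT => x + (al : TT)) =ᵐ[volume] fun x => ‖f x‖ := by
    filter_upwards [hf] with x hx
    show ‖f (x + al)‖ = ‖f x‖
    rw [hx, norm_mul, norm_EE, one_mul]
  obtain ⟨r, hr⟩ := ergodic_rot.quasiErgodic.ae_eq_const_of_ae_eq_comp_ae hfm.norm hinv
  have hr' : ∀ᵐ x : TT, ‖f x‖ = r := hr
  rcases eq_or_ne r 0 with h0 | h0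
  · filter_upwards [hr'] with x hx
    rw [h0] at hx
    exact norm_eq_zero.1 hx
  exfalso
  apply hnot
  have hmem : MemLp f 1 (volume : Measure TT) :=
    MemLp.of_bound hfm r (by filter_upwards [hr'] with x hx using hx.le)
  have hcont := L1_cont hmem mm_al_tendsto
  have hr0 : 0 < r := by
    obtain ⟨x, hx⟩ := hr'.exists
    rw [← hx]
    rw [← hx] at h0
    exact lt_of_le_of_ne (norm_nonneg _) (Ne.symm h0)
  have h1 : ∀ N, ∫ x : TT, ‖f (x + mm N • (al : TT)) - f x‖ =
      (∫ x : TT, ‖EE (Th z (mm N • (al : TT)) x) - 1‖) * r := by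
    intro N
    rw [← integral_mul_const]
    refine integral_congr_ae ?_
    filter_upwards [iter hz hf (mm N), hr'] with x hx hx2
    rw [hx, ← hx2, ← norm_mul]
    congr 1
    ring
  simp_rw [h1] at hcont
  have h2 : Tendsto (fun N => ∫ x : TT, ‖EE (Th z (mm N • (al : TT)) x) - 1‖) atTop (𝓝 0) := by
    have := hcont.mul_const (r⁻¹)
    simpa [mul_assoc, mul_inv_cancel₀ h0] using this
  -- compare
  have hThm : ∀ N, AEStronglyMeasurable (fun x : TT => ‖EE (Th z (mm N • (al : TT)) x) - 1‖)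
      volume := by
    intro N
    have hm : Measurable (fun x : TT => Th z (mm N • (al : TT)) x) := by
      unfold Th
      refine Measurable.tsum fun n => ?_
      have h2 := continuous_ee
      have hG : Continuous (GG z n) := by
        show Continuous fun x : TT => (z n * ee (q n • x)).re
        fun_prop
      exact ((hG.comp (continuous_add_const _)).sub hG).measurable
    exact ((continuous_EE.measurable.comp hm).sub_const 1).norm.aestronglyMeasurable
  have hint1 : ∀ N, Integrable (fun x : TT => ‖EE (Th z (mm N • (al : TT)) x) - 1‖) volume := by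
    intro N
    refine Integrable.of_bound (hThm N) 2 (Eventually.of_forall fun x => ?_)
    rw [norm_norm]
    refine (norm_sub_le _ _).trans ?_
    rw [norm_EE, norm_one]
    norm_num
  have h3 : ∀ N, hh (z N) ≤ (∫ x : TT, ‖EE (Th z (mm N • (al : TT)) x) - 1‖) +
      2 * Real.pi * (C * ∑' n, dd N n) := by
    intro N
    rw [← GG_integral]
    have e : (∫ x : TT, ‖EE (Th z (mm N • (al : TT)) x) - 1‖) + 2 * Real.pi * (C * ∑' n, dd N n) =
        ∫ x : TT, (‖EE (Th z (mm N • (al : TT)) x) - 1‖ + 2 * Real.pi * (C * ∑' n, dd N n)) := by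
      rw [integral_add (hint1 N) (integrable_const _), integral_const]
      have e5 : (volume : Measure TT).real Set.univ = 1 := by
        rw [measureReal_def, UnitAddCircle.measure_univ, ENNReal.toReal_one]
      rw [e5, one_smul]
    rw [e]
    refine integral_mono_of_nonneg (Eventually.of_forall fun x => norm_nonneg _)
      ((hint1 N).add (integrable_const _)) (Eventually.of_forall fun x => ?_)
    show ‖EE (-(2 * GG z N x)) - 1‖ ≤ _
    have e2 : EE (-(2 * GG z N x)) - 1 = (EE (Th z (mm N • (al : TT)) x) - 1) -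
        (EE (Th z (mm N • (al : TT)) x) - EE (-(2 * GG z N x))) := by ring
    rw [e2]
    refine (norm_sub_le _ _).trans ?_
    have h4 := EE_diff (Th z (mm N • (al : TT)) x) (-(2 * GG z N x))
    have h5 := Th_GG hz N x
    have hpi : (0 : ℝ) < 2 * Real.pi := by positivity
    have h6 : 2 * Real.pi * |Th z (mm N • (al : TT)) x - (-(2 * GG z N x))| ≤
        2 * Real.pi * (C * ∑' n, dd N n) := mul_le_mul_of_nonneg_left h5 hpi.le
    linarith
  refine tendsto_of_hh hz ?_
  have h7 : Tendsto (fun N => (∫ x : TT, ‖EE (Th z (mm N • (al : TT)) x) - 1‖) +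
      2 * Real.pi * (C * ∑' n, dd N n)) atTop (𝓝 0) := by
    have := h2.add ((dd_tsum.const_mul C).const_mul (2 * Real.pi))
    simpa using this
  exact squeeze_zero (fun N => integral_nonneg fun x => norm_nonneg _) h3 h7

end Pool.Agent.U38.TS
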