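import Mathlib
import Pool.Agent.U38.TS.Coc

/-!
# Skew products over the Liouville rotation: ergodicity and isomorphisms
-/

set_option autoImplicit false

open Filter Topology MeasureTheory

namespace Pool.Agent.U38.TS

/-- the cocycle -/
noncomputable def ph (a : ℕ → ℝ) (x : TT) : ℝ := Th (fun n => (a n : ℂ)) al x

/-- the skew product -/
noncomputable def SS (a : ℕ → ℝ) (p : TT × TT) : TT × TT := (p.1 + al, p.2 + ((ph a p.1 : ℝ) : TT))

/-- bounded sequences -/
def Bd (a : ℕ → ℝ) : Prop := ∀ n, 2 ≤ a n ∧ a n ≤ 4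

theorem vol_eq : (volume : Measure TT) = AddCircle.haarAddCircle := by
  rw [AddCircle.volume_eq_smul_haarAddCircle, ENNReal.ofReal_one, one_smul]

theorem fz {g : TT → ℂ} {M : ℝ} (hg : AEStronglyMeasurable g (volume : Measure TT))
    (hb : ∀ᵐ y : TT, ‖g y‖ ≤ M) (h : ∀ k : ℤ, ∫ y : TT, fourier (-k) y * g y = 0) :
    g =ᵐ[volume] 0 := by
  rw [vol_eq] at hg hb ⊢
  have hmem : MemLp g 2 (AddCircle.haarAddCircle : Measure TT) := MemLp.of_bound hg M hb
  have h1 := tsum_sq_fourierCoeff (T := (1 : ℝ)) hmem.toLp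
  have h2 : ∀ i : ℤ, fourierCoeff (hmem.toLp : TT → ℂ) i = 0 := by
    intro i
    rw [fourierCoeff_congr_ae hmem.coeFn_toLp]
    have := h i
    rw [vol_eq] at this
    exact this
  simp only [h2, norm_zero, ne_eq, OfNat.ofNat_ne_zero, not_false_eq_true, zero_pow, tsum_zero] at h1
  have hint : Integrable (fun t : TT => ‖(hmem.toLp : TT → ℂ) t‖ ^ 2) AddCircle.haarAddCircle := by
    have := (Lp.memLp hmem.toLp).integrable_norm_pow (by norm_num)
    exact this
  have h3 := (integral_eq_zero_iff_of_nonneg (fun t => by positivity) hint).1 h1.symm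
  filter_upwards [h3, hmem.coeFn_toLp] with t ht ht2
  rw [← ht2]
  have : ‖(hmem.toLp : TT → ℂ) t‖ ^ 2 = 0 := ht
  simpa using this

/-- the Fourier coefficients in the second variable -/
noncomputable def cf (F : TT × TT → ℂ) (k : ℤ) (x : TT) : ℂ := ∫ y : TT, fourier (-k) y * F (x, y)

theorem cf_meas {F : TT × TT → ℂ} (hF : Measurable F) (k : ℤ) :
    AEStronglyMeasurable (cf F k) (volume : Measure TT) := by
  have h : StronglyMeasurable fun p : TT × TT => fourier (-k) p.2 * F p :=
    (((ContinuousMap.continuous (fourier (-k))).measurable.comp measurable_snd).mul hF).stronglyMeasurable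
  exact h.integral_prod_right'.aestronglyMeasurable

theorem cf_eq {F : TT × TT → ℂ} {φ : TT → TT} {η : TT → ℂ}
    (h : ∀ᵐ p : TT × TT, F (p.1 + al, p.2 + φ p.1) = η p.1 * F p) (k : ℤ) :
    ∀ᵐ x : TT, cf F k (x + al) = η x * fourier (-k) (φ x) * cf F k x := by
  rw [Measure.volume_eq_prod] at h
  filter_upwards [Measure.ae_ae_of_ae_prod h] with x hx
  unfold cf
  rw [← integral_add_right_eq_self (μ := (volume : Measure TT)) _ (φ x), ← integral_const_mul]
  refine integral_congr_ae ?_
  filter_upwards [hx] with y hy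
  rw [hy]
  have : fourier (-k) (y + φ x) = (fourier (-k) y * fourier (-k) (φ x) : ℂ) := by
    rw [fourier_apply, fourier_apply, fourier_apply, smul_add, AddCircle.toCircle_add]
    simp
  rw [this]
  ring

theorem ee_eq_fourier (k : ℤ) (t : ℝ) : (fourier k (t : TT) : ℂ) = EE (k * t) := by
  rw [fourier_apply]
  unfold EE ee
  rw [← AddCircle.coe_zsmul, zsmul_eq_mul]

theorem sd1 {z : ℕ → ℂ} {C : ℝ} (hz : ∀ n, ‖z n‖ ≤ C) (x : TT) :
    Summable fun n => (GG z n (x + al) - GG z n x) := by
  have := summable_diff hz 1 x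
  rwa [one_smul] at this

theorem bd_norm {a : ℕ → ℝ} (ha : Bd a) (n : ℕ) : ‖((a n : ℝ) : ℂ)‖ ≤ 4 := by
  rw [Complex.norm_real, Real.norm_eq_abs, abs_of_nonneg (by linarith [(ha n).1])]
  exact (ha n).2

theorem bd_abs {a : ℕ → ℝ} (ha : Bd a) (n : ℕ) : |a n| ≤ 4 := by
  rw [abs_of_nonneg (by linarith [(ha n).1])]
  exact (ha n).2

theorem ph_lin {a b : ℕ → ℝ} (ha : Bd a) (hb : Bd b) (c : TT) (k : ℝ) (x : TT) :
    ph b (x + c) - k * ph a x = Th (fun n => (b n : ℂ) * ee (q n • c) - k * a n) al x := by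
  unfold ph Th
  rw [← tsum_mul_left, ← (sd1 (fun n => bd_norm hb n) (x + c)).tsum_sub
    ((sd1 (fun n => bd_norm ha n) x).mul_left k)]
  refine tsum_congr fun n => ?_
  unfold GG
  simp only [smul_add, ee_add]
  rw [← Complex.sub_re, ← Complex.sub_re, ← Complex.sub_re]
  have : (k : ℝ) * (((a n : ℂ) * (ee (q n • x) * ee (q n • al)) - (a n : ℂ) * ee (q n • x)).re) =
      ((k : ℂ) * ((a n : ℂ) * (ee (q n • x) * ee (q n • al)) - (a n : ℂ) * ee (q n • x))).re := by
    rw [Complex.re_ofReal_mul]
  rw [this, ← Complex.sub_re]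
  congr 1
  ring

theorem continuous_GG (z : ℕ → ℂ) (n : ℕ) : Continuous (GG z n) := by
  have h2 := continuous_ee
  show Continuous fun x : TT => (z n * ee (q n • x)).re
  fun_prop

theorem ph_cont {a : ℕ → ℝ} (ha : Bd a) : Continuous (ph a) := by
  unfold ph Th
  refine continuous_tsum (u := fun n => 4 * (1 * (2 * Real.pi * (2 * bb 0 n)))) (fun n => ?_)
    ((((summable_bb 0).mul_left 2).mul_left _).mul_left _ |>.mul_left 4) ?_
  · have := continuous_GG (fun n => (a n : ℂ)) n
    exact (this.comp (continuous_add_const _)).sub this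
  · intro n x
    refine (GG_diff _ n x _).trans ?_
    have := al_diff 1 n
    rw [one_smul, Nat.cast_one] at this
    exact mul_le_mul (bd_norm ha n) this (norm_nonneg _) (by norm_num)

theorem SS_cont {a : ℕ → ℝ} (ha : Bd a) : Continuous (SS a) := by
  have h1 := ph_cont ha
  have h2 : Continuous (fun t : ℝ => (t : TT)) := AddCircle.continuous_mk' (1 : ℝ)
  unfold SS
  fun_prop

theorem SS_mp {a : ℕ → ℝ} (ha : Bd a) : MeasurePreserving (SS a) (volume : Measure (TT × TT)) volume := by
  rw [Measure.volume_eq_prod]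
  refine MeasurePreserving.skew_product (f := fun x : TT => x + (al : TT))
    (g := fun x y => y + ((ph a x : ℝ) : TT)) (measurePreserving_add_right _ _) ?_ ?_
  · have h1 := ph_cont ha
    have h2 : Continuous (fun t : ℝ => (t : TT)) := AddCircle.continuous_mk' (1 : ℝ)
    have : Continuous (Function.uncurry fun (x y : TT) => y + ((ph a x : ℝ) : TT)) := by
      show Continuous fun p : TT × TT => p.2 + ((ph a p.1 : ℝ) : TT)
      fun_prop
    exact this.measurable
  · refine Eventually.of_forall fun x => ?_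
    exact (measurePreserving_add_right (volume : Measure TT) _).map_eq

/-- the coefficients of an eigenfunction -/
theorem coeff_zero {a b : ℕ → ℝ} (ha : Bd a) (hb : Bd b) (c : TT) (k : ℤ) (e : ℝ) {F : TT × TT → ℂ}
    (hF : Measurable F)
    (h : ∀ᵐ p : TT × TT, F (SS a p) = EE (e * ph b (p.1 + c)) * F p)
    (hnot : ¬ Tendsto (fun n => (e : ℂ) * ((b n : ℂ) * ee (q n • c)) - (k : ℝ) * a n) atTop (𝓝 0)) :
    cf F k =ᵐ[volume] 0 := by
  have h1 := cf_eq (F := F) (φ := fun x => ((ph a x : ℝ) : TT)) (η := fun x => EE (e * ph b (x + c))) h k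
  have hbd : ∀ n, ‖(e : ℂ) * ((b n : ℂ) * ee (q n • c)) - (k : ℝ) * a n‖ ≤ |e| * 4 + |(k : ℝ)| * 4 := by
    intro n
    refine (norm_sub_le _ _).trans ?_
    simp only [norm_mul, norm_ee, mul_one, Complex.norm_real, Real.norm_eq_abs]
    exact add_le_add (mul_le_mul_of_nonneg_left (bd_abs hb n) (abs_nonneg _))
      (mul_le_mul_of_nonneg_left (bd_abs ha n) (abs_nonneg _))
  refine key hbd (cf_meas hF k) ?_ hnot
  filter_upwards [h1] with x hx
  rw [hx]
  congr 1
  rw [ee_eq_fourier, ← EE_add]
  congr 1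
  -- linearity
  have h2 : e * ph b (x + c) + ((-k : ℤ) : ℝ) * ph a x =
      Th (fun n => (e : ℂ) * ((b n : ℂ) * ee (q n • c)) - (k : ℝ) * a n) al x := by
    unfold ph Th
    rw [← tsum_mul_left, ← tsum_mul_left, ← ((sd1 (fun n => bd_norm hb n) (x + c)).mul_left e).tsum_add
      ((sd1 (fun n => bd_norm ha n) x).mul_left _)]
    refine tsum_congr fun n => ?_
    unfold GG
    simp only [smul_add, ee_add]
    rw [← Complex.sub_re, ← Complex.sub_re, ← Complex.sub_re, ← Complex.re_ofReal_mul,
      ← Complex.re_ofReal_mul, ← Complex.add_re]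
    congr 1
    push_cast
    ring
  exact h2

theorem not_tendsto_const {a : ℕ → ℝ} (ha : Bd a) {k : ℤ} (hk : k ≠ 0) (c : TT) :
    ¬ Tendsto (fun n => ((0 : ℝ) : ℂ) * ((a n : ℂ) * ee (q n • c)) - (k : ℝ) * a n) atTop (𝓝 0) := by
  intro h
  have h1 := h.norm
  rw [norm_zero] at h1
  have h2 := (h1.eventually (gt_mem_nhds (show (0 : ℝ) < 1 by norm_num))).exists
  obtain ⟨n, hn⟩ := h2
  have h3 : ‖((0 : ℝ) : ℂ) * ((a n : ℂ) * ee (q n • c)) - (k : ℝ) * a n‖ = |(k : ℝ)| * a n := by
    rw [Complex.ofReal_zero, zero_mul, zero_sub, norm_neg, norm_mul, Complex.norm_real,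
      Complex.norm_real, Real.norm_eq_abs, Real.norm_eq_abs, abs_of_nonneg (by linarith [(ha n).1] : 0 ≤ a n)]
  rw [h3] at hn
  have h4 : (1 : ℝ) ≤ |(k : ℝ)| := by
    have : (1 : ℤ) ≤ |k| := Int.one_le_abs hk
    exact_mod_cast this
  have h5 := (ha n).1
  nlinarith

theorem SS_ergodic {a : ℕ → ℝ} (ha : Bd a) : Ergodic (SS a) (volume : Measure (TT × TT)) := by
  refine ⟨SS_mp ha, ⟨fun A hA hinv => ?_⟩⟩
  classical
  let F : TT × TT → ℂ := A.indicator fun _ => 1
  have hF : Measurable F := measurable_const.indicator hA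
  have hFi : ∀ p, F (SS a p) = F p := by
    intro p
    show A.indicator (fun _ => (1 : ℂ)) (SS a p) = A.indicator (fun _ => (1 : ℂ)) p
    have : SS a p ∈ A ↔ p ∈ A := by
      conv_rhs => rw [← hinv]
      exact Iff.rfl
    by_cases hp : p ∈ A
    · rw [Set.indicator_of_mem hp, Set.indicator_of_mem (this.2 hp)]
    · rw [Set.indicator_of_notMem hp, Set.indicator_of_notMem (fun h => hp (this.1 h))]
  have hFb : ∀ p, ‖F p‖ ≤ 1 := by
    intro p
    show ‖A.indicator (fun _ => (1 : ℂ)) p‖ ≤ 1
    refine (norm_indicator_le_norm_self _ _).trans ?_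
    simp
  have hk : ∀ k : ℤ, k ≠ 0 → cf F k =ᵐ[volume] 0 := by
    intro k hk
    refine coeff_zero ha ha 0 k 0 hF (Eventually.of_forall fun p => ?_) (not_tendsto_const ha hk 0)
    rw [hFi, zero_mul, EE_zero, one_mul]
  have h0 : ∃ c : ℂ, cf F 0 =ᵐ[volume] Function.const TT c := by
    refine ergodic_rot.quasiErgodic.ae_eq_const_of_ae_eq_comp_ae (cf_meas hF 0) ?_
    have := cf_eq (F := F) (φ := fun x => ((ph a x : ℝ) : TT)) (η := fun _ => 1)
      (Eventually.of_forall fun p => by rw [one_mul]; exact hFi p) 0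
    filter_upwards [this] with x hx
    show cf F 0 (x + al) = cf F 0 x
    rw [hx]
    simp
  obtain ⟨c, hc⟩ := h0
  have hall : ∀ᵐ x : TT, ∀ᵐ y : TT, F (x, y) = c := by
    have hk' : ∀ᵐ x : TT, ∀ k : ℤ, k ≠ 0 → cf F k x = 0 := by
      rw [ae_all_iff]
      intro k
      by_cases h : k = 0
      · exact Eventually.of_forall fun x h' => absurd h h'
      · filter_upwards [hk k h] with x hx _
        exact hx
    filter_upwards [hk', hc] with x hx hx0
    have hmeas : Measurable fun y : TT => F (x, y) := hF.comp measurable_prodMk_left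
    have hint : ∀ k : ℤ, Integrable (fun y : TT => fourier (-k) y * F (x, y)) volume := by
      intro k
      refine Integrable.of_bound ((((ContinuousMap.continuous (fourier (-k))).measurable).mul
        hmeas).aestronglyMeasurable) 1 (Eventually.of_forall fun y => ?_)
      rw [norm_mul, fourier_apply, Circle.norm_coe, one_mul]
      exact hFb _
    have hz := fz (g := fun y => F (x, y) - c) (M := 1 + ‖c‖)
      (hmeas.sub_const c).aestronglyMeasurable
      (Eventually.of_forall fun y => (norm_sub_le _ _).trans (by have := hFb (x, y); linarith)) (by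
        intro k
        have e1 : ∀ y : TT, fourier (-k) y * (F (x, y) - c) =
            fourier (-k) y * F (x, y) - fourier (-k) y * c := fun y => by ring
        simp_rw [e1]
        have hint2 : Integrable (fun y : TT => fourier (-k) y * c) volume := by
          have : Continuous fun y : TT => (fourier (-k) y * c : ℂ) := by fun_prop
          exact this.integrable_of_hasCompactSupport (HasCompactSupport.of_compactSpace _)
        rw [integral_sub (hint k) hint2, integral_mul_const]
        have e2 : ∫ y : TT, fourier (-k) y * F (x, y) = cf F k x := rfl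
        rw [e2]
        have e3 : ∫ y : TT, (fourier (-k) y : ℂ) = if k = 0 then 1 else 0 := by
          have := fourierCoeff_fourier (T := (1 : ℝ)) 0
          unfold fourierCoeff at this
          have h2 := congrFun this k
          rw [vol_eq]
          simp only [smul_eq_mul, fourier_zero, mul_one] at h2
          rw [h2, Pi.single_apply]
        rw [e3]
        by_cases hk0 : k = 0
        · subst hk0
          rw [if_pos rfl, one_mul, hx0]
          simp
        · rw [if_neg hk0, zero_mul, hx k hk0, sub_zero])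
    filter_upwards [hz] with y hy
    exact sub_eq_zero.1 hy
  have hall2 : ∀ᵐ p : TT × TT, F p = c := by
    rw [Measure.volume_eq_prod]
    have hms : MeasurableSet {p : TT × TT | F p = c} := hF (measurableSet_singleton c)
    exact (Measure.ae_prod_iff_ae_ae hms).2 hall
  rw [eventuallyConst_set']
  by_cases hc1 : c = 1
  · right
    filter_upwards [hall2] with p hp
    rw [hc1] at hp
    have : p ∈ A := by
      by_contra hpA
      have e : F p = 0 := Set.indicator_of_notMem hpA _
      rw [e] at hp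
      exact zero_ne_one hp
    exact propext ⟨fun _ => trivial, fun _ => this⟩
  · left
    filter_upwards [hall2] with p hp
    have : p ∉ A := by
      intro hpA
      have e : F p = 1 := Set.indicator_of_mem hpA _
      rw [e] at hp
      exact hc1 hp.symm
    exact propext ⟨fun h => this h, fun h => h.elim⟩

/-- **Isomorphic skew products have related sequences.** -/
theorem iso_imp {a b : ℕ → ℝ} (ha : Bd a) (hb : Bd b) {Φ : TT × TT → TT × TT}
    (hΦ : MeasurePreserving Φ (volume : Measure (TT × TT)) volume)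
    (h : Φ ∘ SS a =ᵐ[volume] SS b ∘ Φ) :
    ∃ k : ℤ, Tendsto (fun n => b n - |(k : ℝ)| * a n) atTop (𝓝 0) := by
  -- the first coordinate
  obtain ⟨c, hc⟩ : ∃ c : TT, (fun p : TT × TT => (Φ p).1 - p.1) =ᵐ[volume] Function.const _ c := by
    refine (SS_ergodic ha).quasiErgodic.ae_eq_const_of_ae_eq_comp_ae
      ((measurable_fst.comp hΦ.measurable).sub measurable_fst).aestronglyMeasurable ?_
    filter_upwards [h] with p hp
    have hp' : Φ (SS a p) = SS b (Φ p) := hp
    show (Φ (SS a p)).1 - (SS a p).1 = (Φ p).1 - p.1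
    rw [hp']
    show (Φ p).1 + al - (p.1 + al) = (Φ p).1 - p.1
    abel
  let F : TT × TT → ℂ := fun p => ee (Φ p).2
  have hF : Measurable F := continuous_ee.measurable.comp (measurable_snd.comp hΦ.measurable)
  have hFe : ∀ᵐ p : TT × TT, F (SS a p) = EE (1 * ph b (p.1 + c)) * F p := by
    filter_upwards [h, hc] with p hp hp2
    have hp' : Φ (SS a p) = SS b (Φ p) := hp
    have h3 : (Φ p).1 = p.1 + c := by
      have : (Φ p).1 - p.1 = c := hp2
      rw [← this]; abel
    show ee (Φ (SS a p)).2 = _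
    rw [hp']
    show ee ((Φ p).2 + ((ph b (Φ p).1 : ℝ) : TT)) = _
    rw [ee_add, h3, one_mul, mul_comm]
    rfl
  by_contra hcon
  push Not at hcon
  have hz : ∀ k : ℤ, cf F k =ᵐ[volume] 0 := by
    intro k
    refine coeff_zero ha hb c k 1 hF hFe ?_
    intro ht
    apply hcon k
    rw [tendsto_zero_iff_abs_tendsto_zero]
    refine squeeze_zero (fun n => abs_nonneg _) (fun n => ?_) (tendsto_zero_iff_norm_tendsto_zero.1 ht)
    have h1 := abs_norm_sub_norm_le (((1 : ℝ) : ℂ) * ((b n : ℂ) * ee (q n • c))) ((k : ℝ) * a n)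
    have h2 : ‖((1 : ℝ) : ℂ) * ((b n : ℂ) * ee (q n • c))‖ = b n := by
      rw [Complex.ofReal_one, one_mul, norm_mul, norm_ee, mul_one, Complex.norm_real,
        Real.norm_eq_abs, abs_of_nonneg (by linarith [(hb n).1])]
    have h3 : ‖((k : ℝ) : ℂ) * a n‖ = |(k : ℝ)| * a n := by
      rw [norm_mul, Complex.norm_real, Complex.norm_real, Real.norm_eq_abs, Real.norm_eq_abs,
        abs_of_nonneg (by linarith [(ha n).1] : 0 ≤ a n)]
    rw [h2, h3] at h1
    exact h1
  have hk' : ∀ᵐ x : TT, ∀ k : ℤ, cf F k x = 0 := by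
    rw [ae_all_iff]
    exact hz
  obtain ⟨x, hx⟩ := hk'.exists
  have hmeas : Measurable fun y : TT => F (x, y) := hF.comp measurable_prodMk_left
  have h0 := fz (g := fun y => F (x, y)) (M := 1) hmeas.aestronglyMeasurable
    (Eventually.of_forall fun y => (norm_ee _).le) hx
  obtain ⟨y, hy⟩ := h0.exists
  exact ee_ne _ hy

/-- the transfer function -/
noncomputable def gg (a b : ℕ → ℝ) (x : TT) : ℝ := ∑' n, (b n - a n) * (ee (q n • x)).re

theorem gg_cont {a b : ℕ → ℝ} (h : Summable fun n => |b n - a n|) : Continuous (gg a b) := by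
  unfold gg
  refine continuous_tsum (fun n => ?_) h fun n x => ?_
  · have := continuous_ee
    fun_prop
  · rw [norm_mul, Real.norm_eq_abs]
    have h1 := Complex.abs_re_le_norm (ee (q n • x))
    rw [norm_ee] at h1
    rw [Real.norm_eq_abs]
    have := abs_nonneg (b n - a n)
    nlinarith

theorem gg_summable {a b : ℕ → ℝ} (h : Summable fun n => |b n - a n|) (x : TT) :
    Summable fun n => (b n - a n) * (ee (q n • x)).re := by
  refine Summable.of_norm_bounded h fun n => ?_
  rw [norm_mul, Real.norm_eq_abs, Real.norm_eq_abs]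
  have h1 := Complex.abs_re_le_norm (ee (q n • x))
  rw [norm_ee] at h1
  have := abs_nonneg (b n - a n)
  nlinarith

theorem gg_eq {a b : ℕ → ℝ} (ha : Bd a) (hb : Bd b) (h : Summable fun n => |b n - a n|) (x : TT) :
    ph a x + gg a b (x + al) = gg a b x + ph b x := by
  have s1 := sd1 (fun n => bd_norm ha n) x
  have s2 := gg_summable h (x + al)
  have s3 := gg_summable h x
  have s4 := sd1 (fun n => bd_norm hb n) x
  unfold ph gg Th
  rw [← s1.tsum_add s2, ← s3.tsum_add s4]
  refine tsum_congr fun n => ?_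
  unfold GG
  simp only [Complex.re_ofReal_mul]
  ring

end Pool.Agent.U38.TS
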