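import Mathlib
import Pool.Agent.U38.TS.Skew
import Pool.Agent.Helper449.RC.Torus2

/-!
# The torus: the volume and the diffeomorphisms
-/

set_option autoImplicit false

open Filter Topology MeasureTheory
open scoped Manifold ContDiff

namespace Pool.Agent.U38.TS

open Pool.Agent.Helper449.RC (T2 toT2 cubeT2 liftT2 cubeT2_apply cubeT2_source toT2_liftT2
  contMDiff_toT2 chartAt_T2)
open Pool.Agent.Helper206.Cover (E2)

instance msT2 : MeasurableSpace T2 := inferInstanceAs (MeasurableSpace (Fin 2 → AddCircle (1 : ℝ)))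
instance bsT2 : BorelSpace T2 := inferInstanceAs (BorelSpace (Fin 2 → AddCircle (1 : ℝ)))

/-- The Lebesgue measure of the torus. -/
noncomputable def nu : Measure T2 := (volume : Measure (Fin 2 → TT))

/-- the open cube -/
def Cb (a : E2) : Set E2 := {x | ∀ i, a i - 1 / 2 < x i ∧ x i < a i - 1 / 2 + 1}

theorem mp_circle (b : ℝ) : MeasurePreserving (fun t : ℝ => (t : TT))
    ((volume : Measure ℝ).restrict (Set.Ioo b (b + 1))) volume := by
  have h := AddCircle.measurePreserving_mk (1 : ℝ) b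
  rwa [← Measure.restrict_congr_set (Ioo_ae_eq_Ioc (μ := (volume : Measure ℝ)) (a := b) (b := b + 1))] at h

theorem mp_toT2 (a : E2) : MeasurePreserving toT2 ((volume : Measure E2).restrict (Cb a)) nu := by
  have h1 : MeasurePreserving (@WithLp.ofLp 2 (Fin 2 → ℝ)) ((volume : Measure E2).restrict (Cb a))
      ((volume : Measure (Fin 2 → ℝ)).restrict
        (Set.univ.pi fun i => Set.Ioo (a i - 1 / 2) (a i - 1 / 2 + 1))) := by
    have h2 := (PiLp.volume_preserving_ofLp (Fin 2)).restrict_preimage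
      (s := Set.univ.pi fun i => Set.Ioo (a i - 1 / 2) (a i - 1 / 2 + 1))
      (MeasurableSet.univ_pi fun i => measurableSet_Ioo)
    have e : (@WithLp.ofLp 2 (Fin 2 → ℝ)) ⁻¹'
        (Set.univ.pi fun i => Set.Ioo (a i - 1 / 2) (a i - 1 / 2 + 1)) = Cb a := by
      ext x
      simp [Cb, Set.mem_pi]
    rwa [e] at h2
  have h3 : MeasurePreserving (fun (v : Fin 2 → ℝ) (i : Fin 2) => ((v i : ℝ) : TT))
      ((volume : Measure (Fin 2 → ℝ)).restrict
        (Set.univ.pi fun i => Set.Ioo (a i - 1 / 2) (a i - 1 / 2 + 1)))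
      (volume : Measure (Fin 2 → TT)) := by
    rw [volume_pi, Measure.restrict_pi_pi, volume_pi]
    exact measurePreserving_pi _ _ fun i => mp_circle (a i - 1 / 2)
  exact h3.comp h1

theorem nu_atlas : ∀ e ∈ atlas (EuclideanSpace ℝ (Fin 2)) T2, ∃ ρ : EuclideanSpace ℝ (Fin 2) → ℝ,
    ContDiffOn ℝ ∞ ρ e.target ∧ (∀ y ∈ e.target, 0 < ρ y) ∧
    Measure.map (⇑e) (nu.restrict e.source) =
      (volume.withDensity (fun y => ENNReal.ofReal (ρ y))).restrict e.target := by
  rintro e ⟨a, rfl⟩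
  refine ⟨fun _ => 1, contDiffOn_const, fun _ _ => one_pos, ?_⟩
  have e0 : (volume : Measure E2).withDensity (fun _ => ENNReal.ofReal 1) = volume := by
    rw [ENNReal.ofReal_one]
    exact withDensity_one
  rw [e0]
  have hsrc : ((cubeT2 a).symm).source = (cubeT2 a).target := rfl
  have htgt : ((cubeT2 a).symm).target = Cb a := by
    show (cubeT2 a).source = Cb a
    rw [cubeT2_source]; rfl
  rw [hsrc, htgt]
  have hmt : MeasurableSet (cubeT2 a).target := (cubeT2 a).open_target.measurableSet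
  have hmc : MeasurableSet (Cb a) := by
    have : Cb a = (cubeT2 a).source := by rw [cubeT2_source]; rfl
    rw [this]
    exact (cubeT2 a).open_source.measurableSet
  have hmp := mp_toT2 a
  have hsub : Cb a ⊆ toT2 ⁻¹' (cubeT2 a).target := by
    intro x hx
    have hx' : x ∈ (cubeT2 a).source := by rw [cubeT2_source]; exact hx
    exact (cubeT2 a).map_source hx'
  have h1 : nu.restrict (cubeT2 a).target = Measure.map toT2 ((volume : Measure E2).restrict (Cb a)) := by
    rw [← hmp.map_eq, Measure.restrict_map hmp.measurable hmt, Measure.restrict_restrict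
      (hmp.measurable hmt), Set.inter_eq_right.2 hsub]
  have hae : AEMeasurable ((cubeT2 a).symm) (Measure.map toT2 ((volume : Measure E2).restrict (Cb a))) := by
    rw [← h1]
    exact (cubeT2 a).continuousOn_invFun.aemeasurable hmt
  rw [h1, AEMeasurable.map_map_of_aemeasurable hae hmp.measurable.aemeasurable]
  have h2 : ((cubeT2 a).symm ∘ toT2) =ᵐ[(volume : Measure E2).restrict (Cb a)] id := by
    filter_upwards [ae_restrict_mem hmc] with x hx
    have hx' : x ∈ (cubeT2 a).source := by rw [cubeT2_source]; exact hx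
    exact (cubeT2 a).left_inv hx'
  rw [Measure.map_congr h2, Measure.map_id]

/-- coordinates -/
def Pe : T2 ≃ᵐ TT × TT := MeasurableEquiv.finTwoArrow (α := TT)

theorem Pe_mp : MeasurePreserving Pe nu (volume : Measure (TT × TT)) := volume_preserving_finTwoArrow TT

theorem Pe_apply (p : T2) : Pe p = (p 0, p 1) := rfl

theorem Pe_symm_apply (x : TT × TT) : Pe.symm x = (![x.1, x.2] : Fin 2 → TT) := rfl

/-! ### smoothness of the cocycle -/

/-- the terms of the series -/
noncomputable def tm (a : ℕ → ℝ) (n : ℕ) (t : ℝ) : ℂ :=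
  ((a n : ℂ) * (ee (q n • (al : TT)) - 1)) * Complex.exp ((2 * Real.pi * q n * Complex.I) * t)

theorem tm_iter (a : ℕ → ℝ) (n k : ℕ) : iteratedDeriv k (tm a n) = fun t : ℝ =>
    ((a n : ℂ) * (ee (q n • (al : TT)) - 1)) * (2 * Real.pi * q n * Complex.I) ^ k *
      Complex.exp ((2 * Real.pi * q n * Complex.I) * t) := by
  induction k with
  | zero => funext t; simp [tm]
  | succ k ih =>
    rw [iteratedDeriv_succ, ih]
    funext t
    have h1 : HasDerivAt (fun t : ℝ => Complex.exp ((2 * Real.pi * q n * Complex.I) * t))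
        (Complex.exp ((2 * Real.pi * q n * Complex.I) * t) * (2 * Real.pi * q n * Complex.I)) t := by
      have h2 : HasDerivAt (fun t : ℝ => (2 * Real.pi * q n * Complex.I) * (t : ℂ))
          (2 * Real.pi * q n * Complex.I) t := by
        simpa using (Complex.ofRealCLM.hasDerivAt (x := t)).const_mul (2 * Real.pi * q n * Complex.I : ℂ)
      exact h2.cexp
    rw [(h1.const_mul _).deriv]
    ring

theorem tm_contDiff (a : ℕ → ℝ) (n : ℕ) : ContDiff ℝ ∞ (tm a n) := by
  unfold tm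
  have h : ContDiff ℝ ∞ (fun t : ℝ => (t : ℂ)) := Complex.ofRealCLM.contDiff
  fun_prop

theorem tm_bound {a : ℕ → ℝ} (ha : Bd a) (k n : ℕ) (t : ℝ) :
    ‖iteratedFDeriv ℝ k (tm a n) t‖ ≤ 4 * (2 * Real.pi * 2) * (2 * Real.pi) ^ k * bb k n := by
  rw [norm_iteratedFDeriv_eq_norm_iteratedDeriv, tm_iter]
  have h1 : ‖Complex.exp ((2 * Real.pi * q n * Complex.I) * t)‖ = 1 := by
    have : ((2 * Real.pi * q n * Complex.I) * t : ℂ) = ((2 * Real.pi * q n * t : ℝ) : ℂ) * Complex.I := by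
      push_cast; ring
    rw [this, Complex.norm_exp_ofReal_mul_I]
  have h2 : ‖(2 * Real.pi * q n * Complex.I : ℂ)‖ = 2 * Real.pi * q n := by
    rw [norm_mul, Complex.norm_I, mul_one]
    have : (2 * Real.pi * q n : ℂ) = ((2 * Real.pi * q n : ℝ) : ℂ) := by push_cast; ring
    rw [this, Complex.norm_real, Real.norm_eq_abs, abs_of_nonneg (by positivity)]
  rw [norm_mul, norm_mul, norm_mul, norm_pow, h1, h2, mul_one]
  have h3 := bd_norm ha n
  have h4 := al_diff 1 n
  rw [one_smul, Nat.cast_one, one_mul] at h4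
  have h5 : ‖((a n : ℝ) : ℂ)‖ * ‖ee (q n • (al : TT)) - 1‖ ≤ 4 * (2 * Real.pi * (2 * bb 0 n)) :=
    mul_le_mul h3 h4 (norm_nonneg _) (by norm_num)
  have h6 : (0 : ℝ) ≤ (2 * Real.pi * q n) ^ k := by positivity
  calc _ ≤ 4 * (2 * Real.pi * (2 * bb 0 n)) * (2 * Real.pi * q n) ^ k :=
        mul_le_mul_of_nonneg_right h5 h6
    _ = _ := by unfold bb; rw [mul_pow]; ring

theorem tm_re (a : ℕ → ℝ) (n : ℕ) (t : ℝ) :
    GG (fun n => (a n : ℂ)) n ((t : TT) + al) - GG (fun n => (a n : ℂ)) n (t : TT) = (tm a n t).re := by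
  unfold GG tm
  rw [← Complex.sub_re]
  congr 1
  have h : ee (q n • (t : TT)) = Complex.exp ((2 * Real.pi * q n * Complex.I) * t) := by
    rw [← AddCircle.coe_nsmul, ee_coe, nsmul_eq_mul]
    congr 1
    push_cast
    ring
  rw [smul_add, ee_add, h]
  ring

theorem ph_smooth {a : ℕ → ℝ} (ha : Bd a) : ContDiff ℝ ∞ (fun t : ℝ => ph a (t : TT)) := by
  have h1 : ContDiff ℝ ∞ (fun t : ℝ => ∑' n, tm a n t) := by
    refine contDiff_tsum (v := fun k n => 4 * (2 * Real.pi * 2) * (2 * Real.pi) ^ k * bb k n)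
      (fun n => tm_contDiff a n) (fun k _ => (summable_bb k).mul_left _) ?_
    intro k n t _
    exact tm_bound ha k n t
  have h2 : (fun t : ℝ => ph a (t : TT)) = fun t => Complex.reCLM (∑' n, tm a n t) := by
    funext t
    have hs : Summable fun n => tm a n t := by
      refine Summable.of_norm_bounded (g := fun n => 4 * (2 * Real.pi * 2) * (2 * Real.pi) ^ 0 * bb 0 n)
        ((summable_bb 0).mul_left _) fun n => ?_
      have := tm_bound ha 0 n t
      rwa [norm_iteratedFDeriv_zero] at this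
    rw [Complex.reCLM.map_tsum hs]
    unfold ph Th
    refine tsum_congr fun n => ?_
    exact tm_re a n t
  rw [h2]
  exact Complex.reCLM.contDiff.comp h1

/-! ### smooth maps of the torus -/

theorem smooth_of_lift {F : T2 → T2} {A : E2 → E2} (hA : ContDiff ℝ ∞ A)
    (h : ∀ v, F (toT2 v) = toT2 (A v)) : ContMDiff (𝓡 2) (𝓡 2) ∞ F := by
  intro p
  have hmem : (cubeT2 (liftT2 p)).symm ∈ atlas E2 T2 := ⟨_, rfl⟩
  have hmax : (cubeT2 (liftT2 p)).symm ∈ IsManifold.maximalAtlas (𝓡 2) ∞ T2 :=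
    IsManifold.subset_maximalAtlas hmem
  have hp : p ∈ ((cubeT2 (liftT2 p)).symm).source := mem_chart_source E2 p
  have h1 : ContMDiffAt (𝓡 2) (𝓡 2) ∞ ((cubeT2 (liftT2 p)).symm) p :=
    contMDiffAt_of_mem_maximalAtlas hmax hp
  have h2 : ContMDiffAt (𝓡 2) (𝓡 2) ∞ (fun p' => toT2 (A ((cubeT2 (liftT2 p)).symm p'))) p := by
    have h3 : ContMDiff (𝓡 2) (𝓡 2) ∞ A := hA.contMDiff
    exact (contMDiff_toT2.contMDiffAt (x := A ((cubeT2 (liftT2 p)).symm p))).comp p
      ((h3.contMDiffAt (x := (cubeT2 (liftT2 p)).symm p)).comp p h1)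
  refine h2.congr_of_eventuallyEq ?_
  filter_upwards [((cubeT2 (liftT2 p)).symm).open_source.mem_nhds hp] with p' hp'
  rw [← h]
  congr 1
  exact ((cubeT2 (liftT2 p)).right_inv hp').symm

/-- the map of the torus -/
noncomputable def Tm (a : ℕ → ℝ) (p : T2) : T2 := Pe.symm (SS a (Pe p))

/-- the inverse of the skew product -/
noncomputable def SI (a : ℕ → ℝ) (p : TT × TT) : TT × TT :=
  (p.1 - al, p.2 - ((ph a (p.1 - al) : ℝ) : TT))

theorem SI_SS (a : ℕ → ℝ) (p : TT × TT) : SI a (SS a p) = p := by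
  unfold SI SS
  simp

theorem SS_SI (a : ℕ → ℝ) (p : TT × TT) : SS a (SI a p) = p := by
  unfold SI SS
  simp

/-- the inverse map of the torus -/
noncomputable def Ti (a : ℕ → ℝ) (p : T2) : T2 := Pe.symm (SI a (Pe p))

theorem Tm_smooth {a : ℕ → ℝ} (ha : Bd a) : ContMDiff (𝓡 2) (𝓡 2) ∞ (Tm a) := by
  have hs := ph_smooth ha
  refine smooth_of_lift (A := fun v : E2 => WithLp.toLp 2 ![v 0 + al, v 1 + ph a ((v 0 : ℝ) : TT)]) ?_ ?_
  · rw [contDiff_euclidean]
    intro i
    have h0 : ContDiff ℝ ∞ (fun v : E2 => v 0) := contDiff_euclidean.1 contDiff_id 0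
    have h1 : ContDiff ℝ ∞ (fun v : E2 => v 1) := contDiff_euclidean.1 contDiff_id 1
    fin_cases i
    · exact h0.add contDiff_const
    · exact h1.add (hs.comp h0)
  · intro v
    funext i
    fin_cases i
    · show ((v 0 : ℝ) : TT) + (al : TT) = ((v 0 + al : ℝ) : TT)
      rw [AddCircle.coe_add]
    · show ((v 1 : ℝ) : TT) + ((ph a ((v 0 : ℝ) : TT) : ℝ) : TT) = ((v 1 + ph a ((v 0 : ℝ) : TT) : ℝ) : TT)
      rw [AddCircle.coe_add]

theorem Ti_smooth {a : ℕ → ℝ} (ha : Bd a) : ContMDiff (𝓡 2) (𝓡 2) ∞ (Ti a) := by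
  have hs := ph_smooth ha
  refine smooth_of_lift (A := fun v : E2 =>
    WithLp.toLp 2 ![v 0 - al, v 1 - ph a ((v 0 - al : ℝ) : TT)]) ?_ ?_
  · rw [contDiff_euclidean]
    intro i
    have h0 : ContDiff ℝ ∞ (fun v : E2 => v 0) := contDiff_euclidean.1 contDiff_id 0
    have h1 : ContDiff ℝ ∞ (fun v : E2 => v 1) := contDiff_euclidean.1 contDiff_id 1
    fin_cases i
    · exact h0.sub contDiff_const
    · exact h1.sub (hs.comp (h0.sub contDiff_const))
  · intro v
    funext i
    fin_cases i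
    · show ((v 0 : ℝ) : TT) - (al : TT) = ((v 0 - al : ℝ) : TT)
      rw [AddCircle.coe_sub]
    · show ((v 1 : ℝ) : TT) - ((ph a (((v 0 : ℝ) : TT) - (al : TT)) : ℝ) : TT) =
        ((v 1 - ph a ((v 0 - al : ℝ) : TT) : ℝ) : TT)
      rw [AddCircle.coe_sub, AddCircle.coe_sub]

/-- the diffeomorphism of the torus -/
noncomputable def Df (a : ℕ → ℝ) (ha : Bd a) : Diffeomorph (𝓡 2) (𝓡 2) T2 T2 ∞ where
  toFun := Tm a
  invFun := Ti a
  left_inv p := by
    unfold Tm Ti
    rw [MeasurableEquiv.apply_symm_apply, SI_SS, MeasurableEquiv.symm_apply_apply]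
  right_inv p := by
    unfold Tm Ti
    rw [MeasurableEquiv.apply_symm_apply, SS_SI, MeasurableEquiv.symm_apply_apply]
  contMDiff_toFun := Tm_smooth ha
  contMDiff_invFun := Ti_smooth ha

theorem Tm_ergodic {a : ℕ → ℝ} (ha : Bd a) : Ergodic (Tm a) nu := by
  have h := (MeasurePreserving.symm Pe Pe_mp).ergodic_conjugate_iff (f := SS a)
  exact h.2 (SS_ergodic ha)

end Pool.Agent.U38.TS
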