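import Mathlib
import Pool.Agent.U38.TS.Mfd
import Pool.Agent.H468R2.MA.P_T_BF
import Pool.Agent.H468R2.MA.P_T_C
import Pool.Agent.H468R2.MA.P_T_CH
import Pool.Agent.H468R2.MA.P_T_GEN
import Pool.Agent.H468R2.MA.P_T_LOC
import Pool.Agent.H468R2.MA.P_T_SC

/-!
# Measure isomorphism of smooth ergodic diffeomorphisms of the torus is not classifiable by
countable structures
-/

set_option autoImplicit false

open Filter Topology MeasureTheory
open scoped Manifold ContDiff

namespace Pool.Agent.U38.TS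

open Pool.Agent.Helper449.RC (T2 toT2)
open Pool.Agent.H468R2.MA (RS Iso Hm T_ERG T_GEN Gen)

/-- the parametrisation -/
noncomputable def be (x : ℕ → ℝ) (n : ℕ) : ℝ := 3 + Real.cos (x n)

theorem be_bd (x : ℕ → ℝ) : Bd (be x) := by
  intro n
  unfold be
  have h1 := Real.neg_one_le_cos (x n)
  have h2 := Real.cos_le_one (x n)
  constructor <;> linarith

/-- smooth ergodic volume preserving diffeomorphisms of the torus -/
abbrev SE : Type := {T : Diffeomorph (𝓡 2) (𝓡 2) T2 T2 ∞ //
  MeasurePreserving (⇑T) nu nu ∧ Ergodic (⇑T) nu}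

/-- the family of diffeomorphisms -/
noncomputable def DD (x : ℕ → ℝ) : SE :=
  ⟨Df (be x) (be_bd x), (Tm_ergodic (be_bd x)).toMeasurePreserving, Tm_ergodic (be_bd x)⟩

theorem DD_apply (x : ℕ → ℝ) (p : T2) : (DD x).1 p = Tm (be x) p := rfl

theorem DD_meas : @Measurable (ℕ → ℝ) SE inferInstance
    (MeasurableSpace.comap (fun T : SE => (⇑T.1 : T2 → T2)) (inferInstance : MeasurableSpace (T2 → T2)))
    DD := by
  rw [measurable_comap_iff, measurable_pi_iff]
  intro p
  show Measurable fun x : ℕ → ℝ => Pe.symm (SS (be x) (Pe p))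
  refine Pe.symm.measurable.comp ?_
  unfold SS
  refine measurable_const.prodMk (measurable_const.add ?_)
  have hc : Continuous (fun t : ℝ => (t : TT)) := AddCircle.continuous_mk' (1 : ℝ)
  refine hc.measurable.comp ?_
  unfold ph Th
  refine Measurable.tsum fun n => ?_
  unfold GG be
  have h1 : Measurable fun x : ℕ → ℝ => ((3 + Real.cos (x n) : ℝ) : ℂ) := by
    refine Complex.measurable_ofReal.comp (measurable_const.add ?_)
    exact Real.measurable_cos.comp (measurable_pi_apply n)
  exact (Complex.measurable_re.comp (h1.mul_const _)).sub (Complex.measurable_re.comp (h1.mul_const _))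

/-- measure isomorphism -/
def MI (S T : SE) : Prop := ∃ φ ψ : T2 → T2, MeasurePreserving φ nu nu ∧ MeasurePreserving ψ nu nu ∧
  ψ ∘ φ =ᵐ[nu] id ∧ φ ∘ ψ =ᵐ[nu] id ∧ φ ∘ (⇑S.1) =ᵐ[nu] (⇑T.1) ∘ φ

/-- the isomorphism given by a transfer function -/
noncomputable def HF (g : TT → ℝ) (p : TT × TT) : TT × TT := (p.1, p.2 + ((g p.1 : ℝ) : TT))

theorem HF_mp {g : TT → ℝ} (hg : Continuous g) :
    MeasurePreserving (HF g) (volume : Measure (TT × TT)) volume := by
  rw [Measure.volume_eq_prod]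
  refine MeasurePreserving.skew_product (f := fun x : TT => x)
    (g := fun x y => y + ((g x : ℝ) : TT)) (MeasurePreserving.id _) ?_ ?_
  · have h2 : Continuous (fun t : ℝ => (t : TT)) := AddCircle.continuous_mk' (1 : ℝ)
    have : Continuous (Function.uncurry fun (x y : TT) => y + ((g x : ℝ) : TT)) := by
      show Continuous fun p : TT × TT => p.2 + ((g p.1 : ℝ) : TT)
      fun_prop
    exact this.measurable
  · refine Eventually.of_forall fun x => ?_
    exact (measurePreserving_add_right (volume : Measure TT) _).map_eq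

theorem be_summable {x y : ℕ → ℝ} (h : Summable fun n => |x n - y n|) :
    Summable fun n => |be y n - be x n| := by
  refine Summable.of_nonneg_of_le (fun n => abs_nonneg _) (fun n => ?_) h
  unfold be
  have h1 : (3 + Real.cos (y n)) - (3 + Real.cos (x n)) = Real.cos (y n) - Real.cos (x n) := by ring
  rw [h1, abs_sub_comm (x n)]
  have := Real.lipschitzWith_cos.dist_le_mul (y n) (x n)
  simpa [Real.dist_eq] using this

theorem MI_of_summable {x y : ℕ → ℝ} (h : Summable fun n => |x n - y n|) : MI (DD x) (DD y) := by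
  have hs := be_summable h
  have hg := gg_cont hs
  have hg' : Continuous fun t => -gg (be x) (be y) t := hg.neg
  refine ⟨fun p => Pe.symm (HF (gg (be x) (be y)) (Pe p)),
    fun p => Pe.symm (HF (fun t => -gg (be x) (be y) t) (Pe p)), ?_, ?_, ?_, ?_, ?_⟩
  · exact ((MeasurePreserving.symm Pe Pe_mp).comp (HF_mp hg)).comp Pe_mp
  · exact ((MeasurePreserving.symm Pe Pe_mp).comp (HF_mp hg')).comp Pe_mp
  · refine Eventually.of_forall fun p => ?_
    show Pe.symm (HF (fun t => -gg (be x) (be y) t) (Pe (Pe.symm (HF (gg (be x) (be y)) (Pe p))))) = p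
    rw [MeasurableEquiv.apply_symm_apply]
    have : HF (fun t => -gg (be x) (be y) t) (HF (gg (be x) (be y)) (Pe p)) = Pe p := by
      unfold HF
      simp
    rw [this, MeasurableEquiv.symm_apply_apply]
  · refine Eventually.of_forall fun p => ?_
    show Pe.symm (HF (gg (be x) (be y)) (Pe (Pe.symm (HF (fun t => -gg (be x) (be y) t) (Pe p))))) = p
    rw [MeasurableEquiv.apply_symm_apply]
    have : HF (gg (be x) (be y)) (HF (fun t => -gg (be x) (be y) t) (Pe p)) = Pe p := by
      unfold HF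
      simp
    rw [this, MeasurableEquiv.symm_apply_apply]
  · refine Eventually.of_forall fun p => ?_
    show Pe.symm (HF (gg (be x) (be y)) (Pe (Pe.symm (SS (be x) (Pe p))))) =
      Pe.symm (SS (be y) (Pe (Pe.symm (HF (gg (be x) (be y)) (Pe p)))))
    rw [MeasurableEquiv.apply_symm_apply, MeasurableEquiv.apply_symm_apply]
    congr 1
    unfold HF SS
    refine Prod.ext rfl ?_
    show (Pe p).2 + ((ph (be x) (Pe p).1 : ℝ) : TT) + ((gg (be x) (be y) ((Pe p).1 + al) : ℝ) : TT) =
      (Pe p).2 + ((gg (be x) (be y) (Pe p).1 : ℝ) : TT) + ((ph (be y) (Pe p).1 : ℝ) : TT)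
    rw [add_assoc, add_assoc, ← AddCircle.coe_add, ← AddCircle.coe_add,
      gg_eq (be_bd x) (be_bd y) hs]

theorem MI_imp {x y : ℕ → ℝ} (h : MI (DD x) (DD y)) :
    ∃ k : ℤ, Tendsto (fun n => be y n - |(k : ℝ)| * be x n) atTop (𝓝 0) := by
  obtain ⟨φ, ψ, h1, -, -, -, h5⟩ := h
  have hsm := MeasurePreserving.symm Pe Pe_mp
  refine iso_imp (Φ := fun p => Pe (φ (Pe.symm p))) (be_bd x) (be_bd y) ((Pe_mp.comp h1).comp hsm) ?_
  have h6 := hsm.quasiMeasurePreserving.ae_eq_comp h5
  filter_upwards [h6] with p hp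
  have hp' : φ (Tm (be x) (Pe.symm p)) = Tm (be y) (φ (Pe.symm p)) := hp
  show Pe (φ (Pe.symm (SS (be x) p))) = SS (be y) (Pe (φ (Pe.symm p)))
  have e1 : Pe.symm (SS (be x) p) = Tm (be x) (Pe.symm p) := by
    unfold Tm
    rw [MeasurableEquiv.apply_symm_apply]
  rw [e1, hp']
  unfold Tm
  rw [MeasurableEquiv.apply_symm_apply]

theorem gen_not {x y : ℕ → ℝ} (hg : Gen x y) (k : ℤ) :
    ¬ Tendsto (fun n => be y n - |(k : ℝ)| * be x n) atTop (𝓝 0) := by
  intro ht
  -- choose a subsequence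
  choose s hs1 hs2 hs3 using hg
  have hst : Tendsto s atTop atTop := tendsto_atTop_mono hs1 tendsto_id
  have h1 := ht.comp hst
  have h0 : Tendsto (fun N : ℕ => (1 : ℝ) / (N + 1)) atTop (𝓝 0) := tendsto_one_div_add_atTop_nhds_zero_nat
  have hx : Tendsto (fun N => x (s N)) atTop (𝓝 0) :=
    squeeze_zero_norm (fun N => by rw [Real.norm_eq_abs]; exact hs2 N) h0
  have hy : Tendsto (fun N => y (s N)) atTop (𝓝 Real.pi) := by
    rw [tendsto_iff_norm_sub_tendsto_zero]
    exact squeeze_zero (fun N => norm_nonneg _) (fun N => by rw [Real.norm_eq_abs]; exact hs3 N) h0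
  have h2 : Tendsto (fun N => be y (s N) - |(k : ℝ)| * be x (s N)) atTop
      (𝓝 ((3 + Real.cos Real.pi) - |(k : ℝ)| * (3 + Real.cos 0))) := by
    have c1 := (Real.continuous_cos.tendsto _).comp hy
    have c2 := (Real.continuous_cos.tendsto _).comp hx
    exact (c1.const_add 3).sub ((c2.const_add 3).const_mul _)
  have h3 := tendsto_nhds_unique h1 h2
  rw [Real.cos_pi, Real.cos_zero] at h3
  have h4 : 2 * |(k : ℝ)| = 1 := by linarith
  have h5 : (2 * |k| : ℤ) = 1 := by exact_mod_cast h4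
  omega

/-- There is no Borel reduction to isomorphism of countable binary relations. -/
theorem no_reduction (f : SE → (ℕ → ℕ → Bool))
    (hf : @Measurable SE (ℕ → ℕ → Bool)
      (MeasurableSpace.comap (fun T : SE => (⇑T.1 : T2 → T2)) (inferInstance : MeasurableSpace (T2 → T2)))
      (inferInstance : MeasurableSpace (ℕ → ℕ → Bool)) f)
    (h : ∀ S T : SE, MI S T ↔ ∃ σ : Equiv.Perm ℕ, ∀ i j : ℕ, f S i j = f T (σ i) (σ j)) : False := by
  have hfD : Measurable fun x : ℕ → ℝ => f (DD x) := hf.comp DD_meas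
  let G : (ℕ → ℝ) → RS Unit (fun _ => 2) := fun x _ c => f (DD x) (c 0) (c 1) = true
  have hG : Hm G := by
    constructor
    · intro r c
      have hm : Measurable fun x : ℕ → ℝ => f (DD x) (c 0) (c 1) :=
        (measurable_pi_apply (c 1)).comp ((measurable_pi_apply (c 0)).comp hfD)
      exact hm (measurableSet_singleton true)
    · intro x y hxy
      obtain ⟨σ, hσ⟩ := (h (DD x) (DD y)).1 (MI_of_summable hxy)
      refine ⟨σ, fun r c => ?_⟩
      show f (DD y) (σ (c 0)) (σ (c 1)) = true ↔ f (DD x) (c 0) (c 1) = true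
      rw [hσ]
  have hSC := Pool.Agent.H468R2.MA.t_T_SC
  have hLOC := Pool.Agent.H468R2.MA.t_T_LOC hSC (Pool.Agent.H468R2.MA.t_T_LOC1 hSC)
  have hERG : T_ERG := Pool.Agent.H468R2.MA.t_T_ERG (Pool.Agent.H468R2.MA.t_T_C hSC hLOC)
    Pool.Agent.H468R2.MA.t_T_CH
  obtain ⟨C, hC, hiso⟩ := hERG Unit (fun _ => 2) G hG
  obtain ⟨x, hx, y, hy, hg⟩ := Pool.Agent.H468R2.MA.t_T_GEN C hC
  obtain ⟨π, hπ⟩ := hiso x hx y hy
  have hMI : MI (DD x) (DD y) := by
    rw [h]
    refine ⟨π, fun i j => ?_⟩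
    have := hπ () ![i, j]
    have h2 : f (DD y) (π i) (π j) = true ↔ f (DD x) i j = true := this
    rcases hb : f (DD x) i j with _ | _
    · rw [hb] at h2
      rcases hb2 : f (DD y) (π i) (π j) with _ | _
      · rfl
      · rw [hb2] at h2
        exact absurd (h2.1 rfl) (by simp)
    · rw [hb] at h2
      exact (h2.2 rfl).symm
  obtain ⟨k, hk⟩ := MI_imp hMI
  exact gen_not hg k hk

end Pool.Agent.U38.TS
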